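import Pool.Agent.TH93.ML.Cov1

/-!
# Languages with few guessed bits are covered: the machine
-/

set_option autoImplicit false

namespace Pool.Agent.TH93.ML

open Pool.Agent.NPC Pool.Agent.H620R2.Gauge Pool.Agent.H622R2 Pool.Agent.H622R2.Exp
open Pool.Agent.TH93.GL

/-! ### the machine -/

/-- the numerator, computed from a list of predictions -/
def NmL (p : List Bool × List Bool) : ℕ := Nm (fun i => p.1.getD i false) p.2

theorem poly_NmL : Poly NmL := by
  unfold NmL Nm
  refine Poly.succ (Poly.sum ?_)
  refine NPC.Poly.map (l := fun p : List Bool × List Bool => List.range (p.2.length + 1))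
    (F := fun (p : List Bool × List Bool) (n : ℕ) =>
      2 ^ (p.2.length - n) * Cf (fun i => p.1.getD i false) n p.2)
    (UPoly.range ((UPoly.length (Poly.snd Poly.id)).add (UPoly.const 1))) ?_
  have hl : UPoly (fun q : (List Bool × List Bool) × ℕ => q.1.2.length) :=
    UPoly.length (Poly.snd (Poly.fst Poly.id))
  refine Poly.mul (A4.poly_two_pow (UPoly.of_le (Poly.sub hl.toPoly (Poly.snd Poly.id)) hl
    fun q => Nat.sub_le _ _)) ?_
  unfold Cf
  have hstr : Poly (fun s : ((List Bool × List Bool) × ℕ) × ℕ =>
      decide ((str s.2).length = s.1.2)) :=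
    Poly.decide_eq (Poly.length (M1.poly_str (Poly.snd Poly.id))) (Poly.snd (Poly.fst Poly.id))
  have hw : Poly (fun s : ((List Bool × List Bool) × ℕ) × ℕ => s.1.1.2) :=
    Poly.snd (Poly.fst (Poly.fst Poly.id))
  have hp : Poly (fun s : ((List Bool × List Bool) × ℕ) × ℕ => s.1.1.1) :=
    Poly.fst (Poly.fst (Poly.fst Poly.id))
  refine Poly.ite ?_ (A4.poly_two_pow (UPoly.length ?_)) (NPC.Poly.const 0)
  · refine (Poly.all (l := fun q : (List Bool × List Bool) × ℕ => List.range q.1.2.length)
      (p := fun (q : (List Bool × List Bool) × ℕ) (i : ℕ) =>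
        (! decide ((str i).length = q.2)) || decide (q.1.2.getD i false = q.1.1.getD i false))
      hl.range ?_).congr fun q => Bool.decide_eq_true.symm
    refine Poly.or (Poly.not hstr) (Poly.decide_eq ?_ ?_)
    · exact Poly.getD hw (Poly.snd Poly.id) (NPC.Poly.const false)
    · exact Poly.getD hp (Poly.snd Poly.id) (NPC.Poly.const false)
  · exact Poly.filter (l := fun q : (List Bool × List Bool) × ℕ => List.range q.1.2.length)
      (p := fun (q : (List Bool × List Bool) × ℕ) (i : ℕ) => decide ((str i).length = q.2))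
      hl.range hstr

/-- the questions to the predictor -/
def WF (y : (ℕ × List Bool) × List Bool) : List Bool := pairBits (unpair y.1.2).1 (str y.1.1)

/-- the output, computed from the list of predictions -/
def HF (y : List Bool × List Bool) : List Bool :=
  false :: pairBits (NmL (y.2, (unpair (unpair (unpair y.1).2).2).2)).bits
    (List.replicate ((unpair (unpair y.1).2).1.length +
      (unpair (unpair (unpair y.1).2).2).2.length + 1) true)

theorem poly_WF : Poly WF :=
  poly_pairBits (Poly.fst (poly_unpair.comp (Poly.snd (Poly.fst Poly.id))))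
    (M1.poly_str (Poly.fst (Poly.fst Poly.id)))

theorem poly_HF : Poly HF := by
  have h1 : Poly (fun y : List Bool × List Bool => (unpair y.1).2) :=
    Poly.snd (poly_unpair.comp (Poly.fst Poly.id))
  have h2 : Poly (fun y : List Bool × List Bool => (unpair (unpair y.1).2).1) :=
    Poly.fst (poly_unpair.comp h1)
  have h3 : Poly (fun y : List Bool × List Bool => (unpair (unpair (unpair y.1).2).2).2) :=
    Poly.snd (poly_unpair.comp (Poly.snd (poly_unpair.comp h1)))
  unfold HF
  refine Poly.cons (NPC.Poly.const false) (poly_pairBits (Poly.natBits ?_) (V7.poly_replicate ?_))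
  · exact poly_NmL.comp (Poly.pair (Poly.snd Poly.id) h3)
  · exact ((UPoly.length h2).add (UPoly.length h3)).add (UPoly.const 1)

theorem HF_enc (j k r : ℕ) (w l : List Bool) : HF (enc j k r w, l) =
    false :: pairBits (Nm (fun i => l.getD i false) w).bits
      (List.replicate (k + w.length + 1) true) := by
  unfold HF enc
  simp only [unpair_pairBits, List.length_replicate]
  rfl

theorem WF_enc (j k r : ℕ) (w l : List Bool) (i : ℕ) : WF ((i, enc j k r w), l) =
    pairBits (List.replicate (tj j (k + r + w.length)) true) (str i) := by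
  unfold WF enc
  simp only [unpair_pairBits]

theorem dya_out (N e : ℕ) : dya (false :: pairBits N.bits (List.replicate e true)) =
    (N : ℝ) / 2 ^ e := by
  unfold dya
  simp only [unpair_pairBits, List.length_replicate, valB_bits, Bool.false_eq_true, if_false,
    one_mul]

theorem getD_range {β : ℕ → Bool} {m i : ℕ} (hi : i < m) :
    ((List.range m).map β).getD i false = β i := by
  rw [List.getD_eq_getElem?_getD, List.getElem?_map, List.getElem?_range hi, Option.map_some,
    Option.getD_some]

/-- the capital -/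
noncomputable def dk (β : ℕ → Bool) (k : ℕ) (w : List Bool) : ℝ :=
  (Nm β w : ℝ) / 2 ^ (k + w.length + 1)

theorem dk_nonneg (β : ℕ → Bool) (k : ℕ) (w : List Bool) : 0 ≤ dk β k w := by
  unfold dk
  positivity

theorem dk_fair (β : ℕ → Bool) (k : ℕ) (w : List Bool) :
    dk β k (w ++ [false]) + dk β k (w ++ [true]) ≤ 2 * dk β k w := by
  unfold dk
  have h1 : ((Nm β (w ++ [false]) : ℝ)) + (Nm β (w ++ [true]) : ℝ) = 4 * (Nm β w : ℝ) := by
    exact_mod_cast Nm_fair β w
  have h2 : (w ++ [false]).length = w.length + 1 := by simp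
  have h3 : (w ++ [true]).length = w.length + 1 := by simp
  rw [h2, h3, ← add_div, h1]
  have h4 : (2 : ℝ) ^ (k + (w.length + 1) + 1) = 2 * 2 ^ (k + w.length + 1) := by
    rw [← pow_succ']
    congr 1
  rw [h4]
  apply le_of_eq
  field_simp
  ring

theorem dk_nil (β : ℕ → Bool) (k : ℕ) : dk β k [] ≤ (1 / 2) ^ k := by
  have h1 : Nm β [] = 2 := by
    unfold Nm
    simp [Cf_top]
  unfold dk
  rw [h1]
  simp only [List.length_nil, add_zero, Nat.cast_ofNat]
  apply le_of_eq
  rw [pow_succ, one_div, inv_pow]
  field_simp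

/-- success if all predictions for the strings of length `n` are correct -/
theorem dk_cover {β : ℕ → Bool} {L : Set (List Bool)} {n k : ℕ} (hk : k + 2 ≤ n)
    (h : ∀ i, (str i).length = n → (β i = true ↔ str i ∈ L)) :
    1 ≤ dk β k (chi L (2 ^ (n + 1) - 1)) := by
  classical
  obtain ⟨w, hw⟩ : ∃ w, w = chi L (2 ^ (n + 1) - 1) := ⟨_, rfl⟩
  have hwl : w.length = 2 ^ (n + 1) - 1 := by rw [hw]; exact length_chi _ _
  rw [← hw]
  have h1 : 2 ^ 2 ^ n ≤ Cf β n w := by
    refine Cf_full hwl fun i hi hin => ?_
    rw [hwl] at hi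
    rw [hw]
    unfold chi
    rw [getD_range hi]
    have := h i hin
    cases hb : β i
    · rw [hb] at this
      simpa using this
    · rw [hb] at this
      simpa using this
  have h2 : n < 2 ^ n := Nat.lt_two_pow_self
  have hnw : n < w.length := by
    rw [hwl, pow_succ]
    omega
  have h3 : 2 ^ (w.length - n) * Cf β n w ≤ Nm β w := by
    unfold Nm
    have h4 : 2 ^ (w.length - n) * Cf β n w ∈
        (List.range (w.length + 1)).map fun n => 2 ^ (w.length - n) * Cf β n w :=
      List.mem_map.2 ⟨n, List.mem_range.2 (by omega), rfl⟩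
    have := List.single_le_sum (l := (List.range (w.length + 1)).map fun n =>
      2 ^ (w.length - n) * Cf β n w) (fun _ _ => Nat.zero_le _) _ h4
    omega
  have h4 : 2 ^ (k + w.length + 1) ≤ Nm β w := by
    refine le_trans ?_ h3
    calc 2 ^ (k + w.length + 1) ≤ 2 ^ (w.length - n + 2 ^ n) := by
          apply Nat.pow_le_pow_right (by norm_num)
          have h5 : 2 * n ≤ 2 ^ n := by
            obtain ⟨m, rfl⟩ : ∃ m, n = m + 1 := ⟨n - 1, by omega⟩
            have : m < 2 ^ m := Nat.lt_two_pow_self
            rw [pow_succ]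
            omega
          omega
      _ = 2 ^ (w.length - n) * 2 ^ 2 ^ n := pow_add _ _ _
      _ ≤ _ := Nat.mul_le_mul_left _ h1
  unfold dk
  rw [le_div_iff₀ (by positivity), one_mul]
  exact_mod_cast h4

theorem pad_le (j k r : ℕ) {w : List Bool} {i : ℕ} (hi : i < w.length) :
    2 ^ ((str i).length ^ j) ≤ (List.replicate (tj j (k + r + w.length)) true).length := by
  rw [List.length_replicate]
  unfold tj
  apply Nat.pow_le_pow_right (by norm_num)
  apply Nat.pow_le_pow_left
  have h3 := (length_str i).1
  have h4 : (str i).length < (k + r + w.length).size := by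
    rw [Nat.lt_size]
    omega
  exact h4.le

theorem lt_enc (j k r : ℕ) {w : List Bool} {i : ℕ} (hi : i < w.length) :
    i < (Polynomial.X : Polynomial ℕ).eval (enc j k r w).length := by
  rw [Polynomial.eval_X]
  unfold enc
  rw [Pool.Agent.H620R2.Gauge.length_pairBits, Pool.Agent.H620R2.Gauge.length_pairBits,
    Pool.Agent.H620R2.Gauge.length_pairBits]
  omega

/-- **Languages with few guessed bits are covered.** -/
theorem covered {g : ℕ → ℕ} (hg : NiceT (fun n => n) g) {A : Oracle} {L : Set (List Bool)}
    (hL : InGuess (fun n => n) g A L) {c j : ℕ} (hc : ∃ᶠ n in Filter.atTop, g n ≤ c * n ^ j) :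
    NullC j A {L} := by
  classical
  obtain ⟨V, hV, hx⟩ := hL
  obtain ⟨U, hU, hUx⟩ := exists_pred hg hV c j
  obtain ⟨β, hβ⟩ : ∃ β : ℕ → Bool, β = fun i => decide (Bx g V c j (str i)) := ⟨_, rfl⟩
  have hQ : Poly (fun _ : ℕ × List Bool => ([] : List (List Bool))) := NPC.Poly.const _
  have hFF := IsFP.votes hU Polynomial.X hQ poly_WF poly_HF
  refine ⟨dk β, _, hFF, fun k r w => ?_, dk_nonneg β, dk_fair β, dk_nil β, ?_⟩
  · -- the approximation is exact
    rw [HF_enc, dya_out]
    have h1 : Nm (fun i => ((List.range ((Polynomial.X : Polynomial ℕ).eval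
        (enc j k r w).length)).map (fun i => decide (U (WF ((i, enc j k r w),
          ([] : List (List Bool)).map A)) = [true]))).getD i false) w = Nm β w := by
      refine Nm_congr fun i hi => ?_
      rw [getD_range (lt_enc j k r hi), WF_enc, hβ]
      simp only
      rw [decide_eq_decide]
      exact hUx _ _ (pad_le j k r hi)
    rw [h1]
    unfold dk
    rw [sub_self, abs_zero]
    positivity
  · rintro k L' rfl
    obtain ⟨n, hn, hgn⟩ := (hc.and_eventually (Filter.eventually_ge_atTop (k + 2))).exists
    refine ⟨2 ^ (n + 1) - 1, dk_cover hgn fun i hi => ?_⟩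
    rw [hβ]
    simp only [decide_eq_true_eq]
    rw [hx (str i)]
    constructor
    · rintro ⟨u, h1, _, h2⟩
      exact ⟨u, h1, h2⟩
    · rintro ⟨u, h1, h2⟩
      refine ⟨u, h1, ?_, h2⟩
      rw [hi] at h1 ⊢
      exact h1.trans hn

end Pool.Agent.TH93.ML
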