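import Pool.Agent.TH93.ML.Few
import Pool.Agent.TH93.ML.Cov

/-!
# The law for the measure of `NP` with `g(n)` guessed bits
-/

set_option autoImplicit false

namespace Pool.Agent.TH93.ML

open Pool.Agent.NPC Pool.Agent.H620R2.Gauge Pool.Agent.H622R2 MeasureTheory Filter
open Pool.Agent.TH93.GL

/-- Nondeterministic polynomial time with `g(n)` guessed bits and few accepting strings of guessed
bits (the class `FewP` with `g(n)` guessed bits): their number is at most `n + C`. -/
def InFew (g : ℕ → ℕ) (A : Oracle) (L : Set (List Bool)) : Prop :=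
  ∃ (V : List Bool → List Bool) (C : ℕ), IsFP A V ∧
    (∀ x, x ∈ L ↔ ∃ w : List Bool, w.length ≤ g x.length ∧
      V (pairBits w (pairBits (List.replicate x.length true) x)) = [true]) ∧
    ∀ x : List Bool, Set.ncard {w : List Bool | w.length ≤ g x.length ∧
      V (pairBits w (pairBits (List.replicate x.length true) x)) = [true]} ≤ x.length + C

theorem InFew.guess {g : ℕ → ℕ} {A : Oracle} {L : Set (List Bool)} (h : InFew g A L) :
    InGuess (fun n => n) g A L := by
  obtain ⟨V, C, hV, hx, _⟩ := h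
  exact ⟨V, hV, hx⟩

/-- the test language has few accepting strings -/
theorem HL_few {g : ℕ → ℕ} (hg : NiceT (fun n => n) g) {A : Oracle}
    (hA : ∀ᶠ n : ℕ in atTop, ∀ x : List Bool, x.length = n → nw g A x < n) :
    InFew g A (HL g A) := by
  obtain ⟨n₀, hn₀⟩ := eventually_atTop.1 hA
  obtain ⟨F, hF, hFx⟩ := hg
  have hP := poly_of_polyTime hF
  have key : ∀ x w : List Bool, HM F (pairBits w (pairBits (List.replicate x.length true) x),
      (QM (pairBits w (pairBits (List.replicate x.length true) x))).map A) = [true] ↔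
      (w.length = g x.length ∧ Wins A x w) := by
    intro x w
    have h1 : (QM (pairBits w (pairBits (List.replicate x.length true) x))).map A =
        (List.range (3 * w.length)).map fun t => A (pairBits x (pairBits w
          (List.replicate t true))) := by
      unfold QM xi
      rw [List.map_map, unpair_pairBits]
      simp only [unpair_pairBits]
      refine List.map_congr_left fun t ht => ?_
      rw [List.mem_range] at ht
      simp only [Function.comp, min_eq_left ht.le]
    rw [h1]
    unfold HM Wins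
    simp only [unpair_pairBits, hFx, List.length_replicate, List.cons.injEq, and_true,
      Bool.and_eq_true, decide_eq_true_eq]
  refine ⟨fun z => HM F (z, (QM z).map A), ∑ n ∈ Finset.range n₀, 2 ^ g n,
    IsFP.tt poly_QM (poly_HM hP), fun x => ?_, fun x => ?_⟩
  · unfold HL
    rw [Set.mem_ofPred_eq]
    constructor
    · rintro ⟨w, hw, h⟩
      exact ⟨w, hw.le, (key x w).2 ⟨hw, h⟩⟩
    · rintro ⟨w, _, hw⟩
      exact ⟨w, (key x w).1 hw⟩
  · have h1 : {w : List Bool | w.length ≤ g x.length ∧ (fun z => HM F (z, (QM z).map A))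
        (pairBits w (pairBits (List.replicate x.length true) x)) = [true]} =
        {y : List Bool | y.length = g x.length ∧ Wins A x y} := by
      ext w
      simp only [Set.mem_ofPred_eq]
      rw [key x w]
      constructor
      · rintro ⟨_, h⟩
        exact h
      · rintro ⟨h, h'⟩
        exact ⟨h.le, h, h'⟩
    rw [h1]
    by_cases hx : n₀ ≤ x.length
    · have := hn₀ x.length hx x rfl
      unfold nw at this
      omega
    · push Not at hx
      have h2 : Set.ncard {y : List Bool | y.length = g x.length ∧ Wins A x y} ≤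
          2 ^ g x.length := by
        have h3 : {y : List Bool | y.length = g x.length ∧ Wins A x y} ⊆
            (fun v => bitsOf (g x.length) v) '' ↑(Finset.range (2 ^ g x.length)) := by
          rintro y ⟨hy, _⟩
          obtain ⟨v, hv, hvy⟩ := exists_bitsOf y
          rw [hy] at hv hvy
          exact ⟨v, Finset.mem_coe.2 (Finset.mem_range.2 hv), hvy⟩
        refine (Set.ncard_le_ncard h3 (Set.toFinite _)).trans
          ((Set.ncard_image_le (Set.toFinite _)).trans ?_)
        rw [Set.ncard_coe_finset, Finset.card_range]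
      have h3 : 2 ^ g x.length ≤ ∑ n ∈ Finset.range n₀, 2 ^ g n :=
        Finset.single_le_sum (f := fun n => 2 ^ g n) (fun _ _ => Nat.zero_le _)
          (Finset.mem_range.2 hx)
      omega

theorem nice_pow (c j : ℕ) : NiceT (fun n => n) (fun n => c * n ^ j) := by
  refine ⟨fun z => List.replicate ((Polynomial.C c * Polynomial.X ^ j : Polynomial ℕ).eval
    (unpair z).2.length) true, polyTime_of_poly_list (V7.poly_replicate
      ((UPoly.length (Poly.snd poly_unpair)).eval _)), fun x => ?_⟩
  simp only [unpair_pairBits, Polynomial.eval_mul, Polynomial.eval_C, Polynomial.eval_pow,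
    Polynomial.eval_X]

/-- Deterministic time polynomial in `2 ^ (n ^ j)` relative to the oracle `A`, as polynomial time on
padded inputs. For `j = 1` this is the class `E = DTIME(2 ^ O(n))`, and the union of these classes
for all `j` is `E₂`. -/
def InE (j : ℕ) (A : Oracle) (L : Set (List Bool)) : Prop :=
  ∃ U : List Bool → List Bool, IsFP A U ∧ ∀ x : List Bool,
    x ∈ L ↔ U (pairBits (List.replicate (2 ^ (x.length ^ j)) true) x) = [true]

/-- `c * n ^ j` guessed bits can be tried in time polynomial in `2 ^ (n ^ j)` -/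
theorem InFew.inE {c j : ℕ} {A : Oracle} {L : Set (List Bool)}
    (h : InFew (fun n => c * n ^ j) A L) : InE j A L := by
  obtain ⟨V, hV, hx⟩ := h.guess
  obtain ⟨U, hU, hUx⟩ := exists_pred (nice_pow c j) hV c j
  refine ⟨U, hU, fun x => ?_⟩
  rw [hUx _ _ (by rw [List.length_replicate]), hx x]
  constructor
  · rintro ⟨w, hw, hV⟩
    exact ⟨w, hw, hw, hV⟩
  · rintro ⟨w, hw, _, hV⟩
    exact ⟨w, hw, hV⟩

/-- **The law for the measure of the classes with `g(n)` guessed bits.** -/
theorem law : ∀ᵐ A ∂ranO, ∀ j : ℕ, 1 ≤ j →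
    (∀ g : ℕ → ℕ, NiceT (fun n => n) g → List.TFAE [
      ∃ L, InGuess (fun n => n) g A L ∧ ¬ NullC j A {L},
      ∃ L, InFew g A L ∧ ¬ NullC j A {L},
      ∀ c : ℕ, ∀ᶠ n in atTop, c * n ^ j ≤ g n]) ∧
    ¬ NullC j A {L | (∃ c : ℕ, InFew (fun n => c * n ^ j) A L) ∧ InE j A L} := by
  have hcore : ∀ (M : Alg) (j : ℕ), ∃ c : ℕ, 1 ≤ j → ∀ g : ℕ → ℕ,
      (∀ᶠ n in atTop, c * n ^ j ≤ g n) → ∀ᵐ A ∂ranO, ¬ VC j M A (HL g A) := by
    intro M j
    by_cases hj : 1 ≤ j
    · obtain ⟨c, hc⟩ := ae_core M hj
      exact ⟨c, fun _ => hc⟩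
    · exact ⟨0, fun h => absurd h hj⟩
  choose c hc using hcore
  have h1 : ∀ᵐ A ∂ranO, ∀ j : ℕ, ∀ g, NiceT (fun n => n) g → ∀ M : Alg,
      (1 ≤ j ∧ ∀ᶠ n in atTop, c M j * n ^ j ≤ g n) → ¬ VC j M A (HL g A) := by
    refine ae_all_iff.2 fun j => (ae_ball_iff (countable_niceT (fun n => n))).2 fun g _ => ?_
    refine ae_all_iff.2 fun M => ?_
    by_cases h : 1 ≤ j ∧ ∀ᶠ n in atTop, c M j * n ^ j ≤ g n
    · filter_upwards [hc M j h.1 g h.2] with A hA _
      exact hA
    · exact Eventually.of_forall fun A h' => absurd h' h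
  have h2 : ∀ᵐ A ∂ranO, ∀ g, NiceT (fun n => n) g → (∀ᶠ n in atTop, 1 ≤ g n) →
      ∀ᶠ n : ℕ in atTop, ∀ x : List Bool, x.length = n → nw g A x < n := by
    refine (ae_ball_iff (countable_niceT (fun n => n))).2 fun g _ => ?_
    by_cases h : ∀ᶠ n in atTop, 1 ≤ g n
    · filter_upwards [ae_few g h] with A hA _
      exact hA
    · exact Eventually.of_forall fun A h' => absurd h' h
  filter_upwards [h1, h2] with A hA1 hA2 j hj
  refine ⟨fun g hg => ?_, fun hnull => ?_⟩
  · tfae_have 2 → 1 := by
      rintro ⟨L, hL, hn⟩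
      exact ⟨L, hL.guess, hn⟩
    tfae_have 1 → 3 := by
      rintro ⟨L, hL, hn⟩ k
      by_contra hcon
      rw [not_eventually] at hcon
      exact hn (covered hg hL (hcon.mono fun n hn => (not_le.1 hn).le))
    tfae_have 3 → 2 := by
      intro h
      have h3 : ∀ᶠ n in atTop, 1 ≤ g n := by
        filter_upwards [h 1, eventually_ge_atTop 1] with n hn hn1
        have : 1 ≤ n ^ j := Nat.one_le_pow _ _ hn1
        omega
      refine ⟨HL g A, HL_few hg (hA2 g hg h3), fun hn => ?_⟩
      obtain ⟨M, hM⟩ := VC_of_null hn (Set.mem_singleton _)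
      exact hA1 j g hg M ⟨hj, h _⟩ hM
    tfae_finish
  · obtain ⟨d, F, ⟨M, hM⟩, e1, e2, e3, e4, e5⟩ := hnull
    have hg := nice_pow (c M j + 1) j
    have h3 : ∀ᶠ n : ℕ in atTop, 1 ≤ (c M j + 1) * n ^ j := by
      filter_upwards [eventually_ge_atTop 1] with n hn
      exact Nat.mul_pos (by omega) (Nat.one_le_pow _ _ hn)
    have hmem : HL (fun n => (c M j + 1) * n ^ j) A ∈
        {L | (∃ c : ℕ, InFew (fun n => c * n ^ j) A L) ∧ InE j A L} :=
      ⟨⟨_, HL_few hg (hA2 _ hg h3)⟩, (HL_few hg (hA2 _ hg h3)).inE⟩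
    refine hA1 j _ hg M ⟨hj, Eventually.of_forall fun n => ?_⟩
      ⟨d, F, hM, e1, e2, e3, e4, fun k => e5 k _ hmem⟩
    exact Nat.mul_le_mul_right _ (by omega)

end Pool.Agent.TH93.ML
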