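import Pool.Agent.H620R2.Gauge.Defs
import Pool.Agent.NPC.Num
import Pool.Agent.NPC.Dec

/-!
# Resource-bounded measure relative to an oracle, and the class `NP` with few guessed bits

The definitions of oracles, of polynomial-time functions relative to an oracle (`IsFP`), and of the
string number `i` (`str i`) are in `Pool.Agent.H620R2.Gauge.Defs`.
-/

set_option autoImplicit false

namespace Pool.Agent.TH93.ML

open Pool.Agent.NPC Pool.Agent.H620R2.Gauge

/-- the first `n` bits of the characteristic sequence of `L` -/
noncomputable def chi (L : Set (List Bool)) (n : ℕ) : List Bool :=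
  open Classical in (List.range n).map fun i => decide (str i ∈ L)

/-- The dyadic rational denoted by a string: a sign, and then a numerator in binary paired with a
string whose length is the exponent of the denominator `2 ^ a`. -/
noncomputable def dya : List Bool → ℝ
  | [] => 0
  | s :: y => (if s then -1 else 1) * (valB (unpair y).1 : ℝ) / 2 ^ (unpair y).2.length

/-- the time bounds `2 ^ ((log N) ^ j)`; for `j = 1` this is `N` up to a factor `2` -/
def tj (j N : ℕ) : ℕ := 2 ^ (N.size ^ j)

/-- the input with which approximations to density functions are computed -/
def enc (j k r : ℕ) (w : List Bool) : List Bool :=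
  pairBits (List.replicate (tj j (k + r + w.length)) true)
    (pairBits (List.replicate k true) (pairBits (List.replicate r true) w))

/-- The class `X` of languages has a null cover relative to the oracle `A` which is computed with
oracle `A` in time polynomial in `tj j N`, where `N = k + r + |w|`: density functions `d k` with
`d k [] ≤ 2 ^ (-k)` which cover `X`, and a function `F` computing approximations with error at
most `2 ^ (-r)`. For `j = 1` these are the `p`-computable null covers. -/
def NullC (j : ℕ) (A : Oracle) (X : Set (Set (List Bool))) : Prop :=
  ∃ (d : ℕ → List Bool → ℝ) (F : List Bool → List Bool), IsFP A F ∧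
    (∀ k r w, |dya (F (enc j k r w)) - d k w| ≤ (1 / 2) ^ r) ∧
    (∀ k w, 0 ≤ d k w) ∧
    (∀ k w, d k (w ++ [false]) + d k (w ++ [true]) ≤ 2 * d k w) ∧
    (∀ k, d k [] ≤ (1 / 2) ^ k) ∧
    ∀ k, ∀ L ∈ X, ∃ n, 1 ≤ d k (chi L n)

/-- The string `y` wins for the input `x`: the oracle contains a small number at the place of `x`
and `y`. The probability of this is about `1 / (2 ^ m + val y + 1)`, where `m` is the length
of `y`. -/
def Wins (A : Oracle) (x y : List Bool) : Prop :=
  valB ((List.range (3 * y.length)).map fun t => A (pairBits x (pairBits y
    (List.replicate t true)))) * (2 ^ y.length + valB y + 1) < 2 ^ (3 * y.length)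

/-- the test language: some string of length `g(n)` wins -/
def HL (g : ℕ → ℕ) (A : Oracle) : Set (List Bool) :=
  {x | ∃ y : List Bool, y.length = g x.length ∧ Wins A x y}

end Pool.Agent.TH93.ML
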