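import Pool.Agent.TH93.ML.Fin
import Pool.Agent.TH93.GL.Low

/-!
# Relative to almost every oracle the test language is not covered by a null cover
-/

set_option autoImplicit false

namespace Pool.Agent.TH93.ML

open Pool.Agent.NPC Pool.Agent.H620R2.Gauge Finset MeasureTheory Filter
open Pool.Agent.TH93.GL (poly_log)

/-- The language `L` is covered by a null cover whose approximations are computed by `M`. -/
def VC (j : ℕ) (M : Alg) (A : Oracle) (L : Set (List Bool)) : Prop :=
  ∃ (d : ℕ → List Bool → ℝ) (F : List Bool → List Bool), (∀ x, M.out A x = some (F x)) ∧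
    (∀ k r w, |dya (F (enc j k r w)) - d k w| ≤ (1 / 2) ^ r) ∧
    (∀ k w, 0 ≤ d k w) ∧
    (∀ k w, d k (w ++ [false]) + d k (w ++ [true]) ≤ 2 * d k w) ∧
    (∀ k, d k [] ≤ (1 / 2) ^ k) ∧
    ∀ k, ∃ n, 1 ≤ d k (chi L n)

theorem VC_of_null {j : ℕ} {A : Oracle} {X : Set (Set (List Bool))} (h : NullC j A X)
    {L : Set (List Bool)} (hL : L ∈ X) : ∃ M : Alg, VC j M A L := by
  obtain ⟨d, F, ⟨M, hM⟩, h1, h2, h3, h4, h5⟩ := h
  exact ⟨M, d, F, hM, h1, h2, h3, h4, fun k => h5 k L hL⟩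

theorem chi_succ (L : Set (List Bool)) (n : ℕ) :
    chi L (n + 1) = chi L n ++ [open Classical in decide (str n ∈ L)] := by
  unfold chi
  rw [List.range_succ, List.map_append]
  rfl

/-- success -/
theorem recO_of (D : List Bool → ℝ) (hfair : ∀ w, D (w ++ [false]) + D (w ++ [true]) ≤ 2 * D w)
    (L : Set (List Bool)) : ∀ (n n' i : ℕ), n ≤ n' → 1 ≤ D (chi L (i + n)) →
      RecO D (fun i => open Classical in decide (str i ∈ L)) n' (chi L i) := by
  intro n n'
  induction n' generalizing n with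
  | zero =>
    intro i hn h
    obtain rfl : n = 0 := by omega
    exact h
  | succ n' ih =>
    intro i hn h
    rcases Nat.eq_zero_or_pos n with rfl | hn0
    · exact Or.inl h
    · right
      refine ⟨hfair _, ?_⟩
      rw [length_chi, ← chi_succ]
      refine ih (n - 1) (i + 1) (by omega) ?_
      rwa [show i + 1 + (n - 1) = i + n by omega]

theorem chi_growth (D : List Bool → ℝ) (hD : ∀ w, 0 ≤ D w)
    (hfair : ∀ w, D (w ++ [false]) + D (w ++ [true]) ≤ 2 * D w) (L : Set (List Bool)) (n : ℕ) :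
    D (chi L n) ≤ 2 ^ n * D [] := by
  induction n with
  | zero => simp [chi]
  | succ n ih =>
    rw [chi_succ]
    have h1 := hfair (chi L n)
    have h2 := hD (chi L n ++ [false])
    have h3 := hD (chi L n ++ [true])
    have h4 : D (chi L n ++ [open Classical in decide (str n ∈ L)]) ≤ 2 * D (chi L n) := by
      cases open Classical in decide (str n ∈ L) <;> linarith
    rw [pow_succ]
    linarith

/-- a covered language leads to the events -/
theorem ev_of_VC {j : ℕ} {M : Alg} {A : Oracle} {g : ℕ → ℕ} (h : VC j M A (HL g A)) {i₀ : ℕ}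
    (hi₀ : 1 ≤ i₀) : ∃ n, ∀ n' ≥ n, Ev g j (2 * i₀) i₀ n' M (5 * (1 / 2) ^ i₀) A := by
  obtain ⟨d, F, hM, happ, hd0, hfair, hd1, hcov⟩ := h
  obtain ⟨k, hk⟩ : ∃ k, k = 2 * i₀ := ⟨_, rfl⟩
  rw [← hk]
  have hD : ∀ w, d k w + 2 * (1 / 2) ^ (w.length + k) ≤ Dv j k M A w ∧
      Dv j k M A w ≤ d k w + 4 * (1 / 2) ^ (w.length + k) := by
    intro w
    have h1 := abs_le.1 (happ k (w.length + k) w)
    have h2 := hd0 k w
    have h3 : (0 : ℝ) < (1 / 2) ^ (w.length + k) := by positivity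
    unfold Dv
    rw [hM, Option.getD_some, max_eq_right (by linarith [h1.1])]
    constructor <;> linarith [h1.1, h1.2]
  have hDf : ∀ w, Dv j k M A (w ++ [false]) + Dv j k M A (w ++ [true]) ≤ 2 * Dv j k M A w := by
    intro w
    have h1 := (hD (w ++ [false])).2
    have h2 := (hD (w ++ [true])).2
    have h3 := (hD w).1
    have h4 := hfair k w
    have e1 : (1 / 2 : ℝ) ^ ((w ++ [false]).length + k) = 1 / 2 * (1 / 2) ^ (w.length + k) := by
      rw [List.length_append, List.length_singleton, ← pow_succ']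
      congr 1
      ring
    have e2 : (1 / 2 : ℝ) ^ ((w ++ [true]).length + k) = 1 / 2 * (1 / 2) ^ (w.length + k) := by
      rw [List.length_append, List.length_singleton, ← pow_succ']
      congr 1
      ring
    rw [e1] at h1
    rw [e2] at h2
    linarith
  have hD0 : ∀ w, 0 ≤ Dv j k M A w := fun w => le_max_left _ _
  obtain ⟨n, hn⟩ := hcov k
  have hni : i₀ ≤ n := by
    by_contra hlt
    push Not at hlt
    have h1 := chi_growth (d k) (hd0 k) (hfair k) (HL g A) n
    have h2 := mul_le_mul_of_nonneg_left (hd1 k) (by positivity : (0 : ℝ) ≤ 2 ^ n)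
    have h3 : (2 : ℝ) ^ n * (1 / 2) ^ k < 1 := by
      have e1 : (1 / 2 : ℝ) ^ k = 1 / 2 ^ k := by rw [one_div, one_div, inv_pow]
      rw [e1, mul_one_div, div_lt_one (by positivity)]
      exact pow_lt_pow_right₀ (by norm_num) (by omega)
    linarith
  refine ⟨n - i₀, fun n' hn' => ⟨?_, ?_⟩⟩
  · have h1 := chi_growth (Dv j k M A) hD0 hDf (HL g A) i₀
    have h2 := (hD []).2
    have h3 := hd1 k
    rw [List.length_nil, Nat.zero_add] at h2
    have h4 : (2 : ℝ) ^ i₀ * (1 / 2) ^ k = (1 / 2) ^ i₀ := by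
      rw [hk, two_mul, pow_add, ← mul_assoc, ← mul_pow]
      norm_num
    have h5 : (2 : ℝ) ^ i₀ * Dv j k M A [] ≤ 2 ^ i₀ * (5 * (1 / 2) ^ k) :=
      mul_le_mul_of_nonneg_left (by linarith) (by positivity)
    calc _ ≤ (2 : ℝ) ^ i₀ * Dv j k M A [] := h1
      _ ≤ 2 ^ i₀ * (5 * (1 / 2) ^ k) := h5
      _ = 5 * (2 ^ i₀ * (1 / 2) ^ k) := by ring
      _ = _ := by rw [h4]
  · refine recO_of _ hDf (HL g A) (n - i₀) n' i₀ hn' ?_
    rw [show i₀ + (n - i₀) = n by omega]
    have h1 := (hD (chi (HL g A) n)).1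
    have h2 : (0 : ℝ) < (1 / 2) ^ ((chi (HL g A) n).length + k) := by positivity
    linarith

/-! ### the event depends on a finite part of the oracle -/

theorem recO_congr {D D' : List Bool → ℝ} {χ χ' : ℕ → Bool} : ∀ (n : ℕ) (w : List Bool),
    (∀ v, v.length ≤ w.length + n → D v = D' v) →
    (∀ i, i < w.length + n → χ i = χ' i) → RecO D χ n w → RecO D' χ' n w := by
  intro n
  induction n with
  | zero => intro w h _ h1; simp only [RecO] at h1 ⊢; rwa [← h w (by omega)]
  | succ n ih =>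
    intro w h hχ h1
    simp only [RecO] at h1 ⊢
    rw [← h w (by omega), ← h (w ++ [false]) (by simp), ← h (w ++ [true]) (by simp),
      ← hχ w.length (by omega)]
    refine h1.imp_right (And.imp_right fun h2 => ?_)
    refine ih _ (fun v hv => h v ?_) (fun i hi => hχ i ?_) h2
    · simp only [List.length_append, List.length_singleton] at hv
      omega
    · simp only [List.length_append, List.length_singleton] at hi
      omega

theorem ev_pre (g : ℕ → ℕ) (j k i₀ n : ℕ) (M : Alg) (β : ℝ) : ∃ N₀ : ℕ, ∀ N ≥ N₀,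
    (∀ i < i₀ + n, ∀ k' < 2 ^ mm g i, ∀ t < 3 * mm g i, idx (cs g (i, k') t) < N) ∧
    ∀ A : Oracle, Ev g j k i₀ n M β A → Ev g j k i₀ n M β (orc N (pre N A)) := by
  obtain ⟨qb, hqb⟩ := Alg.out_local M
  -- bounds for the lengths
  obtain ⟨B₁, hB₁⟩ : ∃ B₁ : ℕ, ∀ i < i₀ + n, ∀ k' t, t < 3 * mm g i →
      (cs g (i, k') t).length ≤ B₁ := by
    refine ⟨∑ i ∈ range (i₀ + n), (2 * (str i).length + 1 + (2 * mm g i + 1 + 3 * mm g i)),
      fun i hi k' t ht => ?_⟩
    have h1 : (cs g (i, k') t).length ≤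
        2 * (str i).length + 1 + (2 * mm g i + 1 + 3 * mm g i) := by
      unfold cs
      rw [Pool.Agent.H620R2.Gauge.length_pairBits, Pool.Agent.H620R2.Gauge.length_pairBits,
        length_bitsOf, List.length_replicate]
      simp only
      omega
    exact h1.trans (Finset.single_le_sum (f := fun i =>
      (2 * (str i).length + 1 + (2 * mm g i + 1 + 3 * mm g i))) (fun i _ => Nat.zero_le _)
      (Finset.mem_range.2 hi))
  obtain ⟨B₂, hB₂⟩ : ∃ B₂ : ℕ, ∀ i ≤ i₀ + n, qb.eval (lenE j k i) ≤ B₂ := by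
    refine ⟨∑ i ∈ range (i₀ + n + 1), qb.eval (lenE j k i), fun i hi => ?_⟩
    exact Finset.single_le_sum (f := fun i => qb.eval (lenE j k i)) (fun i _ => Nat.zero_le _)
      (Finset.mem_range.2 (by omega))
  refine ⟨2 ^ (B₁ + B₂ + 1), fun N hN => ?_⟩
  have hsmall : ∀ q : List Bool, q.length ≤ B₁ + B₂ → idx q < N := by
    intro q hq
    have h1 := idx_lt q
    have h2 : 2 ^ (q.length + 1) ≤ 2 ^ (B₁ + B₂ + 1) := Nat.pow_le_pow_right (by norm_num) (by omega)
    omega
  refine ⟨fun i hi k' _ t ht => hsmall _ ((hB₁ i hi k' t ht).trans (by omega)), fun A hA => ?_⟩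
  have hχ : ∀ i < i₀ + n, (str i ∈ HL g A ↔ str i ∈ HL g (orc N (pre N A))) := by
    intro i hi
    rw [mem_HL, mem_HL]
    refine exists_congr fun k' => and_congr_right fun hk' => ?_
    unfold Wins
    have h1 : ((List.range (3 * (bitsOf (mm g i) k').length)).map fun t => A (pairBits (str i)
        (pairBits (bitsOf (mm g i) k') (List.replicate t true)))) =
        ((List.range (3 * (bitsOf (mm g i) k').length)).map fun t => orc N (pre N A)
        (pairBits (str i) (pairBits (bitsOf (mm g i) k') (List.replicate t true)))) := by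
      refine List.map_congr_left fun t ht => ?_
      rw [List.mem_range, length_bitsOf] at ht
      rw [orc_pre]
      have := hB₁ i hi k' t ht
      unfold cs at this
      exact hsmall _ (this.trans (by omega))
    rw [h1]
  have hD : ∀ v : List Bool, v.length ≤ i₀ + n →
      Dv j k M A v = Dv j k M (orc N (pre N A)) v := by
    intro v hv
    unfold Dv
    obtain ⟨Q, _, h1, h2⟩ := hqb A (enc j k (v.length + k) v)
    rw [h2 (orc N (pre N A)) fun q hq => ?_]
    refine orc_pre (hsmall q ?_)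
    have h3 := h1 q hq
    rw [length_enc] at h3
    have := hB₂ _ hv
    omega
  have hchi : chi (HL g A) i₀ = chi (HL g (orc N (pre N A))) i₀ := by
    unfold chi
    refine List.map_congr_left fun i hi => ?_
    rw [List.mem_range] at hi
    rw [decide_eq_decide]
    exact hχ i (by omega)
  obtain ⟨h1, h2⟩ := hA
  refine ⟨?_, ?_⟩
  · rwa [← hchi, ← hD _ (by rw [length_chi]; omega)]
  · rw [← hchi]
    refine recO_congr n _ (fun v hv => hD v (by rwa [length_chi] at hv)) (fun i hi => ?_) h2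
    rw [length_chi] at hi
    rw [decide_eq_decide]
    exact hχ i hi

open Classical in
/-- the probability of the event -/
theorem ev_prob (g : ℕ → ℕ) (j k i₀ n : ℕ) (M : Alg) (β : ℝ) (hβ : 0 ≤ β)
    (ϖ ε : ℕ → ℝ) (hϖ0 : ∀ i, 0 ≤ ϖ i) (hε0 : ∀ i, 0 ≤ ε i)
    (hm : ∀ i, i₀ ≤ i → 1 ≤ mm g i)
    (hϖ : ∀ i ≥ i₀, ∀ i' ≥ i, 2 / 2 ^ mm g i' ≤ ϖ i)
    (hε : ∀ i ≥ i₀, 2 / 2 ^ (2 * mm g i) ≤ ε i) :
    ranO {A | Ev g j k i₀ n M β A} ≤ ENNReal.ofReal ((∏ t ∈ range n, (1 + ε (i₀ + t))) * β +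
        ∑ t ∈ range n, ((M.p.eval (lenE j k (i₀ + t)) + 2 * M.p.eval (lenE j k (i₀ + t + 1)) : ℕ) : ℝ)
          * ϖ (i₀ + t) + M.p.eval (lenE j k i₀) * ϖ i₀) := by
  obtain ⟨N, hN⟩ := ev_pre g j k i₀ n M β
  obtain ⟨hN1, hN2⟩ := hN N le_rfl
  have h1 := fin_bound g j k i₀ n M N β hβ ϖ ε hϖ0 hε0 (fun i hi _ => hm i hi) hN1
    (fun i hi i' hi' _ => hϖ i hi i' hi') fun i hi _ => hε i hi
  refine (measure_mono (t := {A : Oracle | (fun z : Fin N → Bool =>
    Ev g j k i₀ n M β (orc N z)) (pre N A)}) fun A hA => hN2 A hA).trans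
    ((Pool.Agent.TH683.CP.ranO_pre (N := N) fun z => Ev g j k i₀ n M β (orc N z)).trans
      (ENNReal.ofReal_le_ofReal ?_))
  rw [← card_of_Ex]
  have h7 : (Fintype.card (Fin N → Bool) : ℝ) * 2 ^ (-(N : ℝ)) = 1 := by
    rw [Fintype.card_fun, Fintype.card_fin, Fintype.card_bool]
    push_cast
    rw [← Real.rpow_natCast, ← Real.rpow_add (by norm_num)]
    simp
  have h8 : (0 : ℝ) < 2 ^ (-(N : ℝ)) := by positivity
  refine (mul_le_mul_of_nonneg_right h1 h8.le).trans (le_of_eq ?_)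
  rw [mul_assoc, h7, mul_one]

end Pool.Agent.TH93.ML
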