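import Mathlib

/-!
# Mean values over independent bits, and a gambler who cannot see the hidden cells

`Av π l f g` is the expectation of `f` at the point obtained from `g` by replacing the coordinates in
the list `l` by independent bits, where the coordinate `j` is `true` with probability `π j`.
-/

set_option autoImplicit false

namespace Pool.Agent.TH93.ML

open Finset

variable {J : Type*} [DecidableEq J]

/-- the mean value -/
noncomputable def Av (π : J → ℝ) : List J → ((J → Bool) → ℝ) → (J → Bool) → ℝ
  | [], f, g => f g
  | j :: l, f, g => (1 - π j) * Av π l f (Function.update g j false) +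
      π j * Av π l f (Function.update g j true)

variable {π : J → ℝ}

theorem Av_append (l l' : List J) (f : (J → Bool) → ℝ) (g : J → Bool) :
    Av π (l ++ l') f g = Av π l (Av π l' f) g := by
  induction l generalizing g with
  | nil => rfl
  | cons j l ih => simp only [List.cons_append, Av, ih]

theorem Av_const (l : List J) (c : ℝ) (g : J → Bool) : Av π l (fun _ => c) g = c := by
  induction l generalizing g with
  | nil => rfl
  | cons j l ih => simp only [Av, ih]; ring

theorem Av_add (l : List J) (f f' : (J → Bool) → ℝ) (g : J → Bool) :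
    Av π l (fun h => f h + f' h) g = Av π l f g + Av π l f' g := by
  induction l generalizing g with
  | nil => rfl
  | cons j l ih => simp only [Av, ih]; ring

theorem Av_smul (l : List J) (a : ℝ) (f : (J → Bool) → ℝ) (g : J → Bool) :
    Av π l (fun h => a * f h) g = a * Av π l f g := by
  induction l generalizing g with
  | nil => rfl
  | cons j l ih => simp only [Av, ih]; ring

/-- monotone, for functions compared on the points which agree with `g` outside of `l` -/
theorem Av_mono (hπ : ∀ j, 0 ≤ π j ∧ π j ≤ 1) (l : List J) {f f' : (J → Bool) → ℝ}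
    {g : J → Bool} (h : ∀ h : J → Bool, (∀ j ∉ l, h j = g j) → f h ≤ f' h) :
    Av π l f g ≤ Av π l f' g := by
  induction l generalizing g with
  | nil => exact h g fun j _ => rfl
  | cons j l ih =>
    simp only [Av]
    have key : ∀ b, Av π l f (Function.update g j b) ≤ Av π l f' (Function.update g j b) := by
      intro b
      refine ih fun h' hh => h h' fun i hi => ?_
      rw [List.mem_cons, not_or] at hi
      rw [hh i hi.2, Function.update_of_ne hi.1]
    exact add_le_add (mul_le_mul_of_nonneg_left (key _) (by linarith [(hπ j).2]))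
      (mul_le_mul_of_nonneg_left (key _) (hπ j).1)

theorem Av_congr (hπ : ∀ j, 0 ≤ π j ∧ π j ≤ 1) (l : List J) {f f' : (J → Bool) → ℝ}
    {g : J → Bool} (h : ∀ h : J → Bool, (∀ j ∉ l, h j = g j) → f h = f' h) :
    Av π l f g = Av π l f' g :=
  le_antisymm (Av_mono hπ l fun h' hh => (h h' hh).le) (Av_mono hπ l fun h' hh => (h h' hh).ge)

open Classical in
/-- the indicator of a set of points -/
noncomputable def ind (P : (J → Bool) → Prop) (h : J → Bool) : ℝ := if P h then 1 else 0

theorem ind_nonneg (P : (J → Bool) → Prop) (h : J → Bool) : 0 ≤ ind P h := by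
  unfold ind
  split_ifs <;> norm_num

theorem ind_le_one (P : (J → Bool) → Prop) (h : J → Bool) : ind P h ≤ 1 := by
  unfold ind
  split_ifs <;> norm_num

theorem ind_mono {P Q : (J → Bool) → Prop} {h : J → Bool} (hPQ : P h → Q h) :
    ind P h ≤ ind Q h := by
  unfold ind
  split_ifs with h1 h2 h2
  · exact le_rfl
  · exact absurd (hPQ h1) h2
  · norm_num
  · exact le_rfl

theorem ind_or (P Q : (J → Bool) → Prop) (h : J → Bool) :
    ind (fun h => P h ∨ Q h) h ≤ ind P h + ind Q h := by
  unfold ind
  split_ifs <;> simp_all

/-- the probability that one of the coordinates in `Q ∩ l` is `true` -/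
theorem Av_hit (hπ : ∀ j, 0 ≤ π j ∧ π j ≤ 1) (ϖ : ℝ) (hϖ : 0 ≤ ϖ) (Q : Finset J) (l : List J)
    (hl : l.Nodup) (hp : ∀ j ∈ l, π j ≤ ϖ) (g : J → Bool) :
    Av π l (ind fun h => ∃ j ∈ Q, j ∈ l ∧ h j = true) g ≤
      ((Q.filter fun j => j ∈ l).card : ℝ) * ϖ := by
  induction l generalizing g with
  | nil => simp [Av, ind]
  | cons j l ih =>
    rw [List.nodup_cons] at hl
    have ih' := fun g => ih hl.2 (fun i hi => hp i (List.mem_cons_of_mem _ hi)) g
    simp only [Av]
    have hpj := hp j List.mem_cons_self
    have key : Av π l (ind fun h => ∃ i ∈ Q, i ∈ j :: l ∧ h i = true)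
        (Function.update g j false) ≤ ((Q.filter fun i => i ∈ l).card : ℝ) * ϖ := by
      refine (Av_mono hπ l fun h hh => ?_).trans (ih' (Function.update g j false))
      refine ind_mono ?_
      rintro ⟨i, hi, hil, hhi⟩
      rcases List.mem_cons.1 hil with rfl | hil
      · rw [hh _ hl.1, Function.update_self] at hhi
        simp at hhi
      · exact ⟨i, hi, hil, hhi⟩
    by_cases hjQ : j ∈ Q
    · have hc : (Q.filter fun i => i ∈ j :: l).card = (Q.filter fun i => i ∈ l).card + 1 := by
        have : Q.filter (fun i => i ∈ j :: l) = insert j (Q.filter fun i => i ∈ l) := by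
          ext i
          simp only [mem_filter, List.mem_cons, Finset.mem_insert]
          constructor
          · rintro ⟨h1, rfl | h2⟩
            · exact Or.inl rfl
            · exact Or.inr ⟨h1, h2⟩
          · rintro (rfl | ⟨h1, h2⟩)
            · exact ⟨hjQ, Or.inl rfl⟩
            · exact ⟨h1, Or.inr h2⟩
        rw [this, card_insert_of_notMem]
        simp only [mem_filter, not_and]
        exact fun _ => hl.1
      have h1 : Av π l (ind fun h => ∃ i ∈ Q, i ∈ j :: l ∧ h i = true)
          (Function.update g j true) ≤ 1 := by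
        refine (Av_mono hπ l fun h _ => ind_le_one _ h).trans (le_of_eq (Av_const _ _ _))
      rw [hc]
      push_cast
      have h2 : (0 : ℝ) ≤ ((Q.filter fun i => i ∈ l).card : ℝ) * ϖ := by positivity
      have h3 := mul_le_mul_of_nonneg_left key (by linarith [(hπ j).2] : 0 ≤ 1 - π j)
      have h4 := mul_le_mul_of_nonneg_left h1 (hπ j).1
      have h5 : (1 - π j) * (((Q.filter fun i => i ∈ l).card : ℝ) * ϖ) ≤
          ((Q.filter fun i => i ∈ l).card : ℝ) * ϖ := by
        nlinarith [(hπ j).1]
      linarith
    · have hc : Q.filter (fun i => i ∈ j :: l) = Q.filter fun i => i ∈ l := by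
        ext i
        simp only [mem_filter, List.mem_cons]
        constructor
        · rintro ⟨h1, rfl | h2⟩
          · exact absurd h1 hjQ
          · exact ⟨h1, h2⟩
        · rintro ⟨h1, h2⟩
          exact ⟨h1, Or.inr h2⟩
      have h1 : Av π l (ind fun h => ∃ i ∈ Q, i ∈ j :: l ∧ h i = true)
          (Function.update g j true) ≤ ((Q.filter fun i => i ∈ l).card : ℝ) * ϖ := by
        refine (Av_mono hπ l fun h hh => ?_).trans (ih' (Function.update g j true))
        refine ind_mono ?_
        rintro ⟨i, hi, hil, hhi⟩
        rcases List.mem_cons.1 hil with rfl | hil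
        · exact absurd hi hjQ
        · exact ⟨i, hi, hil, hhi⟩
      rw [hc]
      have h3 := mul_le_mul_of_nonneg_left key (by linarith [(hπ j).2] : 0 ≤ 1 - π j)
      have h4 := mul_le_mul_of_nonneg_left h1 (hπ j).1
      calc _ ≤ (1 - π j) * (((Q.filter fun i => i ∈ l).card : ℝ) * ϖ) +
            π j * (((Q.filter fun i => i ∈ l).card : ℝ) * ϖ) := add_le_add h3 h4
        _ = _ := by ring

theorem Av_hit' (hπ : ∀ j, 0 ≤ π j ∧ π j ≤ 1) (ϖ : ℝ) (hϖ : 0 ≤ ϖ) (Q : Finset J) (l : List J)
    (hl : l.Nodup) (hp : ∀ j ∈ l, π j ≤ ϖ) (g : J → Bool) :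
    Av π l (ind fun h => ∃ j ∈ Q, j ∈ l ∧ h j = true) g ≤ (Q.card : ℝ) * ϖ := by
  refine (Av_hit hπ ϖ hϖ Q l hl hp g).trans (mul_le_mul_of_nonneg_right ?_ hϖ)
  exact_mod_cast card_filter_le _ _

/-- the mean value depends only on the coordinates in `l` if the function does -/
theorem Av_base (l : List J) {F : (J → Bool) → ℝ} {g g' : J → Bool}
    (hF : ∀ h h' : J → Bool, (∀ j ∈ l, h j = h' j) → (∀ j ∉ l, h j = g j) →
      (∀ j ∉ l, h' j = g' j) → F h = F h') : Av π l F g = Av π l F g' := by
  induction l generalizing g g' with
  | nil => exact hF g g' (fun j hj => by simp at hj) (fun _ _ => rfl) fun _ _ => rfl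
  | cons j l ih =>
    have key : ∀ b, Av π l F (Function.update g j b) = Av π l F (Function.update g' j b) := by
      intro b
      by_cases hj : j ∈ l
      · refine ih fun h h' h1 h2 h3 => hF h h' (fun i hi => ?_) (fun i hi => ?_) fun i hi => ?_
        · rcases List.mem_cons.1 hi with rfl | hi
          · exact h1 _ hj
          · exact h1 _ hi
        · rw [List.mem_cons, not_or] at hi
          rw [h2 i hi.2, Function.update_of_ne hi.1]
        · rw [List.mem_cons, not_or] at hi
          rw [h3 i hi.2, Function.update_of_ne hi.1]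
      · refine ih fun h h' h1 h2 h3 => hF h h' (fun i hi => ?_) (fun i hi => ?_) fun i hi => ?_
        · rcases List.mem_cons.1 hi with rfl | hi
          · rw [h2 i hj, h3 i hj, Function.update_self, Function.update_self]
          · exact h1 _ hi
        · rw [List.mem_cons, not_or] at hi
          rw [h2 i hi.2, Function.update_of_ne hi.1]
        · rw [List.mem_cons, not_or] at hi
          rw [h3 i hi.2, Function.update_of_ne hi.1]
    simp only [Av, key]

/-- the probability that all coordinates in `l` are `false` -/
theorem Av_none (hπ : ∀ j, 0 ≤ π j ∧ π j ≤ 1) (l : List J) (hl : l.Nodup) (a b : ℝ)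
    (g : J → Bool) : Av π l (fun h => if l.any h then b else a) g =
      (l.map fun j => 1 - π j).prod * a + (1 - (l.map fun j => 1 - π j).prod) * b := by
  induction l generalizing g with
  | nil => simp [Av]
  | cons j l ih =>
    rw [List.nodup_cons] at hl
    simp only [Av]
    have h1 : Av π l (fun h => if (j :: l).any h then b else a) (Function.update g j false) =
        Av π l (fun h => if l.any h then b else a) (Function.update g j false) := by
      refine Av_congr hπ l fun h hh => ?_
      have h2 : h j = false := by rw [hh j hl.1, Function.update_self]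
      simp only [List.any_cons, h2, Bool.false_or]
    have h3 : Av π l (fun h => if (j :: l).any h then b else a) (Function.update g j true) = b := by
      refine (Av_congr hπ l fun h hh => ?_).trans (Av_const (π := π) l b _)
      have h2 : h j = true := by rw [hh j hl.1, Function.update_self]
      simp [h2]
    rw [h1, h3, ih hl.2]
    simp only [List.map_cons, List.prod_cons]
    ring

/-! ### The gambler -/

variable (cell : ℕ → List J)

/-- the coordinates of the cells `i, ..., i + n - 1` -/
def fl : ℕ → ℕ → List J
  | 0, _ => []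
  | n + 1, i => cell i ++ fl n (i + 1)

/-- The gambler `D`, whose capital depends on the hidden bits `h` and on the bits `w` seen, is
successful at one of the next `n` bits, and he is fair until then. -/
def Rec (D : (J → Bool) → List Bool → ℝ) : ℕ → List Bool → (J → Bool) → Prop
  | 0, w, h => 1 ≤ D h w
  | n + 1, w, h => 1 ≤ D h w ∨ (D h (w ++ [false]) + D h (w ++ [true]) ≤ 2 * D h w ∧
      Rec D n (w ++ [(cell w.length).any h]) h)

/-- The main lemma: the gambler has little chance of success. -/
theorem main_rec (hπ : ∀ j, 0 ≤ π j ∧ π j ≤ 1) (D : (J → Bool) → List Bool → ℝ)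
    (hD : ∀ h w, 0 ≤ D h w) (T : ℕ → ℕ) (Q : (J → Bool) → List Bool → Finset J)
    (hQ : ∀ g w, (Q g w).card ≤ T w.length)
    (hloc : ∀ g h w, (∀ j ∈ Q g w, h j = g j) → D h w = D g w)
    (ϖ ε : ℕ → ℝ) (hϖ0 : ∀ i, 0 ≤ ϖ i) (hε : ∀ i, 0 ≤ ε i) (i₀ i₁ : ℕ)
    (hϖ : ∀ i ≥ i₀, ∀ i' ≥ i, i' < i₁ → ∀ j ∈ cell i', π j ≤ ϖ i)
    (hq : ∀ i ≥ i₀, i < i₁ → ((cell i).map fun j => 1 - π j).prod ≤ (1 + ε i) / 2 ∧
      1 - ((cell i).map fun j => 1 - π j).prod ≤ (1 + ε i) / 2) :
    ∀ (n : ℕ) (w : List Bool) (g : J → Bool), i₀ ≤ w.length → w.length + n ≤ i₁ →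
      (fl cell n w.length).Nodup →
      (∀ j ∈ fl cell n w.length, g j = false) →
      Av π (fl cell n w.length) (ind (Rec cell D n w)) g ≤
        (∏ t ∈ range n, (1 + ε (w.length + t))) * D g w +
          ∑ t ∈ range n, ((T (w.length + t) + 2 * T (w.length + t + 1) : ℕ) : ℝ) *
            ϖ (w.length + t) := by
  have hmem : ∀ n i, ∀ j ∈ fl cell n i, ∃ i' ≥ i, i' < i + n ∧ j ∈ cell i' := by
    intro n
    induction n with
    | zero => intro i j hj; simp [fl] at hj
    | succ n ih =>
      intro i j hj
      simp only [fl, List.mem_append] at hj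
      rcases hj with hj | hj
      · exact ⟨i, le_rfl, by omega, hj⟩
      · obtain ⟨i', hi', hi'', h⟩ := ih (i + 1) j hj
        exact ⟨i', by omega, by omega, h⟩
  intro n
  induction n with
  | zero =>
    intro w g _ _ _ _
    simp only [fl, Av, range_zero, prod_empty, sum_empty, one_mul, add_zero, ind, Rec]
    split_ifs with h
    · exact h
    · exact hD g w
  | succ n ih =>
    intro w g hi₀ hi₁ hnd hg
    have hlen : ∀ b : Bool, (w ++ [b]).length = w.length + 1 := fun b => by simp
    obtain ⟨C', hC'⟩ : ∃ C', C' = ∏ t ∈ range n, (1 + ε (w.length + 1 + t)) := ⟨_, rfl⟩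
    obtain ⟨δ', hδ'⟩ : ∃ δ', δ' = ∑ t ∈ range n,
      ((T (w.length + 1 + t) + 2 * T (w.length + 1 + t + 1) : ℕ) : ℝ) *
        ϖ (w.length + 1 + t) := ⟨_, rfl⟩
    have hC0 : 1 ≤ C' := by
      rw [hC']
      calc (1 : ℝ) = ∏ t ∈ range n, (1 : ℝ) := by simp
        _ ≤ _ := prod_le_prod (fun _ _ => by norm_num) fun t _ => by linarith [hε (w.length + 1 + t)]
    have hδ0 : 0 ≤ δ' := by
      rw [hδ']
      exact sum_nonneg fun t _ => mul_nonneg (Nat.cast_nonneg _) (hϖ0 _)
    have hprod : ∏ t ∈ range (n + 1), (1 + ε (w.length + t)) = (1 + ε w.length) * C' := by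
      rw [prod_range_succ', hC', mul_comm]
      congr 1
      refine prod_congr rfl fun t _ => ?_
      rw [show w.length + (t + 1) = w.length + 1 + t by ring]
    have hsum : ∑ t ∈ range (n + 1), ((T (w.length + t) + 2 * T (w.length + t + 1) : ℕ) : ℝ) *
        ϖ (w.length + t) = ((T w.length + 2 * T (w.length + 1) : ℕ) : ℝ) * ϖ w.length + δ' := by
      rw [sum_range_succ', hδ', add_comm]
      congr 1
      refine sum_congr rfl fun t _ => ?_
      rw [show w.length + (t + 1) = w.length + 1 + t by ring]
    rw [hprod, hsum]
    -- the touched coordinates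
    obtain ⟨U, hU⟩ : ∃ U, U = Q g w ∪ (Q g (w ++ [false]) ∪ Q g (w ++ [true])) := ⟨_, rfl⟩
    have hUc : U.card ≤ T w.length + 2 * T (w.length + 1) := by
      rw [hU]
      refine (card_union_le _ _).trans (add_le_add (hQ g w) ((card_union_le _ _).trans ?_))
      have h1 := hQ g (w ++ [false])
      have h2 := hQ g (w ++ [true])
      rw [hlen] at h1 h2
      omega
    obtain ⟨tch, htch⟩ : ∃ tch : (J → Bool) → Prop,
      tch = fun h => ∃ j ∈ U, j ∈ fl cell (n + 1) w.length ∧ h j = true := ⟨_, rfl⟩
    have hnt : ∀ h : J → Bool, (∀ j ∉ fl cell (n + 1) w.length, h j = g j) → ¬ tch h →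
        ∀ j ∈ U, h j = g j := by
      intro h hh hnt j hj
      by_cases hjl : j ∈ fl cell (n + 1) w.length
      · rw [hg j hjl]
        by_contra hne
        rw [htch] at hnt
        exact hnt ⟨j, hj, hjl, by simpa using hne⟩
      · exact hh j hjl
    have hDeq : ∀ h : J → Bool, (∀ j ∈ U, h j = g j) → D h w = D g w ∧
        D h (w ++ [false]) = D g (w ++ [false]) ∧ D h (w ++ [true]) = D g (w ++ [true]) := by
      intro h hh
      refine ⟨hloc g h w fun j hj => hh j ?_, hloc g h _ fun j hj => hh j ?_,
        hloc g h _ fun j hj => hh j ?_⟩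
      · rw [hU]; exact mem_union_left _ hj
      · rw [hU]; exact mem_union_right _ (mem_union_left _ hj)
      · rw [hU]; exact mem_union_right _ (mem_union_right _ hj)
    have hPt : Av π (fl cell (n + 1) w.length) (ind tch) g ≤
        ((T w.length + 2 * T (w.length + 1) : ℕ) : ℝ) * ϖ w.length := by
      rw [htch]
      refine (Av_hit hπ (ϖ w.length) (hϖ0 _) U _ hnd (fun j hj => ?_) g).trans ?_
      · obtain ⟨i', hi', hi'', h⟩ := hmem _ _ j hj
        exact hϖ _ hi₀ i' hi' (by omega) j h
      · refine mul_le_mul_of_nonneg_right ?_ (hϖ0 _)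
        exact_mod_cast (card_filter_le _ _).trans hUc
    have hDg := hD g w
    by_cases h1 : 1 ≤ D g w
    · have h2 : Av π (fl cell (n + 1) w.length) (ind (Rec cell D (n + 1) w)) g ≤ 1 :=
        (Av_mono hπ _ fun h _ => ind_le_one _ h).trans (le_of_eq (Av_const _ _ _))
      have h3 : 1 ≤ (1 + ε w.length) * C' * D g w := by
        have h4 : 1 ≤ (1 + ε w.length) * C' := by nlinarith [hε w.length]
        nlinarith
      have h5 : 0 ≤ ((T w.length + 2 * T (w.length + 1) : ℕ) : ℝ) * ϖ w.length :=
        mul_nonneg (Nat.cast_nonneg _) (hϖ0 _)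
      linarith
    by_cases h2 : D g (w ++ [false]) + D g (w ++ [true]) ≤ 2 * D g w
    swap
    · have h3 : Av π (fl cell (n + 1) w.length) (ind (Rec cell D (n + 1) w)) g ≤
          Av π (fl cell (n + 1) w.length) (ind tch) g := by
        refine Av_mono hπ _ fun h hh => ind_mono fun hR => ?_
        by_contra hc
        obtain ⟨e1, e2, e3⟩ := hDeq h (hnt h hh hc)
        rcases hR with hR | ⟨hR, _⟩
        · rw [e1] at hR
          exact h1 hR
        · rw [e1, e2, e3] at hR
          exact h2 hR
      have h4 : 0 ≤ (1 + ε w.length) * C' * D g w := by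
        have := hε w.length
        positivity
      linarith
    -- the main case
    have hnd1 : (cell w.length).Nodup ∧ (fl cell n (w.length + 1)).Nodup ∧
        List.Disjoint (cell w.length) (fl cell n (w.length + 1)) := by
      have := hnd
      simp only [fl, List.nodup_append'] at this
      exact this
    obtain ⟨G, hG⟩ : ∃ G : (J → Bool) → Prop, G = fun h =>
      (∀ j ∈ U, j ∈ cell w.length → h j = false) ∧
        Rec cell D n (w ++ [(cell w.length).any h]) h := ⟨_, rfl⟩
    have h3 : Av π (fl cell (n + 1) w.length) (ind (Rec cell D (n + 1) w)) g ≤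
        Av π (fl cell (n + 1) w.length) (ind tch) g +
          Av π (fl cell (n + 1) w.length) (ind G) g := by
      rw [← Av_add]
      refine Av_mono hπ _ fun h hh => (ind_mono (Q := fun h => tch h ∨ G h) fun hR => ?_).trans
        (ind_or _ _ _)
      by_cases hc : tch h
      · exact Or.inl hc
      right
      obtain ⟨e1, e2, e3⟩ := hDeq h (hnt h hh hc)
      rw [hG]
      refine ⟨fun j hj hjc => ?_, ?_⟩
      · by_contra hne
        rw [htch] at hc
        exact hc ⟨j, hj, by simp only [fl, List.mem_append]; exact Or.inl hjc, by simpa using hne⟩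
      · rcases hR with hR | ⟨_, hR⟩
        · rw [e1] at hR
          exact absurd hR h1
        · exact hR
    have h4 : Av π (fl cell (n + 1) w.length) (ind G) g ≤ C' * ((1 + ε w.length) * D g w) + δ' := by
      have e0 : fl cell (n + 1) w.length = cell w.length ++ fl cell n (w.length + 1) := rfl
      rw [e0, Av_append]
      have e1 : Av π (cell w.length) (Av π (fl cell n (w.length + 1)) (ind G)) g ≤
          Av π (cell w.length) (fun h => C' * (if (cell w.length).any h then
            D g (w ++ [true]) else D g (w ++ [false])) + δ') g := by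
        refine Av_mono hπ _ fun h hh => ?_
        have hany : ∀ h' : J → Bool, (∀ j ∉ fl cell n (w.length + 1), h' j = h j) →
            (cell w.length).any h' = (cell w.length).any h := by
          intro h' hh'
          have hcg : ∀ l : List J, (∀ j ∈ l, h' j = h j) → l.any h' = l.any h := by
            intro l
            induction l with
            | nil => intro _; rfl
            | cons j l ihl =>
              intro hl
              rw [List.any_cons, List.any_cons, hl j List.mem_cons_self,
                ihl fun i hi => hl i (List.mem_cons_of_mem _ hi)]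
          exact hcg _ fun j hj => hh' j fun hj' => hnd1.2.2 hj hj'
        have hDb : (if (cell w.length).any h then D g (w ++ [true]) else D g (w ++ [false])) =
            D g (w ++ [(cell w.length).any h]) := by
          cases (cell w.length).any h <;> simp
        rw [hDb]
        by_cases hne : ∀ j ∈ U, j ∈ cell w.length → h j = false
        · have e2 : Av π (fl cell n (w.length + 1)) (ind G) h ≤
              Av π (fl cell n (w.length + 1))
                (ind (Rec cell D n (w ++ [(cell w.length).any h]))) h := by
            refine Av_mono hπ _ fun h' hh' => ind_mono fun hGh => ?_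
            rw [hG] at hGh
            have := hGh.2
            rwa [hany h' hh'] at this
          have hfl : ∀ j ∈ fl cell n (w.length + 1), h j = false := by
            intro j hj
            rw [hh j fun hj' => hnd1.2.2 hj' hj]
            exact hg j (by rw [e0, List.mem_append]; exact Or.inr hj)
          have e3 := ih (w ++ [(cell w.length).any h]) h (by rw [hlen]; omega)
            (by rw [hlen]; omega) (by rw [hlen]; exact hnd1.2.1) (by rw [hlen]; exact hfl)
          rw [hlen, ← hC', ← hδ'] at e3
          have e4 : D h (w ++ [(cell w.length).any h]) = D g (w ++ [(cell w.length).any h]) := by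
            refine hloc g h _ fun j hj => ?_
            have hjU : j ∈ U := by
              rw [hU]
              refine mem_union_right _ ?_
              cases hb : (cell w.length).any h
              · rw [hb] at hj; exact mem_union_left _ hj
              · rw [hb] at hj; exact mem_union_right _ hj
            by_cases hjc : j ∈ cell w.length
            · rw [hne j hjU hjc, hg j (by rw [e0, List.mem_append]; exact Or.inl hjc)]
            · exact hh j hjc
          rw [e4] at e3
          exact e2.trans e3
        · have e2 : Av π (fl cell n (w.length + 1)) (ind G) h ≤ 0 := by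
            refine (Av_mono hπ _ fun h' hh' => ?_).trans
              (le_of_eq (Av_const (π := π) (fl cell n (w.length + 1)) 0 h))
            unfold ind
            rw [if_neg]
            rw [hG]
            rintro ⟨hGh, _⟩
            refine hne fun j hj hjc => ?_
            rw [← hGh j hj hjc]
            exact (hh' j fun hj' => hnd1.2.2 hjc hj').symm
          have e3 : 0 ≤ C' * D g (w ++ [(cell w.length).any h]) :=
            mul_nonneg (by linarith) (hD _ _)
          linarith
      refine e1.trans ?_
      rw [Av_add, Av_const, Av_smul, Av_none hπ _ hnd1.1]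
      obtain ⟨q, hqd⟩ : ∃ q, q = ((cell w.length).map fun j => 1 - π j).prod := ⟨_, rfl⟩
      have hq' := hq w.length hi₀ (by omega)
      rw [← hqd] at hq' ⊢
      have e5 : q * D g (w ++ [false]) + (1 - q) * D g (w ++ [true]) ≤
          (1 + ε w.length) * D g w := by
        have a1 := mul_le_mul_of_nonneg_right hq'.1 (hD g (w ++ [false]))
        have a2 := mul_le_mul_of_nonneg_right hq'.2 (hD g (w ++ [true]))
        have a3 := mul_le_mul_of_nonneg_left h2 (by linarith [hε w.length] :
          (0 : ℝ) ≤ (1 + ε w.length) / 2)
        nlinarith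
      have e6 := mul_le_mul_of_nonneg_left e5 (by linarith : (0 : ℝ) ≤ C')
      linarith
    have h5 : C' * ((1 + ε w.length) * D g w) = (1 + ε w.length) * C' * D g w := by ring
    linarith

end Pool.Agent.TH93.ML
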