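import Pool.Agent.TH93.ML.Mix
import Pool.Agent.TH93.ML.Defs
import Pool.Agent.H620R2.Gauge2.CoverE
import Pool.Agent.TH683.CP.Easy
import Pool.Agent.TH93.GL.Blk

/-!
# The blocks of the oracle, and the probability that a block wins
-/

set_option autoImplicit false

namespace Pool.Agent.TH93.ML

open Pool.Agent.NPC Pool.Agent.H620R2.Gauge Finset

/-! ### the distribution of the content of a block -/

open Classical in
theorem marg {I : Type*} [Fintype I] [DecidableEq I] {s : ℕ} (e : Fin s → I)
    (he : Function.Injective e) (R : (Fin s → Bool) → Prop) :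
    (univ.filter fun z : I → Bool => R (fun a => z (e a))).card * 2 ^ s =
      (univ.filter R).card * Fintype.card (I → Bool) := by
  have h1 : ((univ.filter fun z : I → Bool => R (fun a => z (e a))) ×ˢ
      (univ : Finset (Fin s → Bool))).card =
      ((univ : Finset (I → Bool)) ×ˢ univ.filter R).card := by
    refine Finset.card_bij' (fun p _ => (Function.extend e p.2 p.1, fun a => p.1 (e a)))
      (fun p _ => (Function.extend e p.2 p.1, fun a => p.1 (e a))) ?_ ?_ ?_ ?_
    · rintro ⟨z, c⟩ h
      simp only [mem_product, mem_filter, mem_univ, true_and, and_true] at h ⊢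
      exact h
    · rintro ⟨z, c⟩ h
      simp only [mem_product, mem_filter, mem_univ, true_and, and_true] at h ⊢
      have : (fun a => Function.extend e c z (e a)) = c := by
        funext a
        exact he.extend_apply _ _ _
      rwa [this]
    · rintro ⟨z, c⟩ h
      refine Prod.ext ?_ ?_
      · funext i
        by_cases hi : ∃ a, e a = i
        · obtain ⟨a, rfl⟩ := hi
          exact he.extend_apply _ _ _
        · show Function.extend e (fun a => z (e a)) (Function.extend e c z) i = z i
          rw [Function.extend_apply' _ _ _ hi, Function.extend_apply' _ _ _ hi]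
      · funext a
        exact he.extend_apply _ _ _
    · rintro ⟨z, c⟩ h
      refine Prod.ext ?_ ?_
      · funext i
        by_cases hi : ∃ a, e a = i
        · obtain ⟨a, rfl⟩ := hi
          exact he.extend_apply _ _ _
        · show Function.extend e (fun a => z (e a)) (Function.extend e c z) i = z i
          rw [Function.extend_apply' _ _ _ hi, Function.extend_apply' _ _ _ hi]
      · funext a
        exact he.extend_apply _ _ _
  rw [card_product, card_product, card_univ, card_univ, Fintype.card_fun, Fintype.card_bool,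
    Fintype.card_fin] at h1
  rw [h1, mul_comm]

open Classical in
theorem card_val (s : ℕ) (R : ℕ → Prop) :
    (univ.filter fun c : Fin s → Bool => R (valB (List.ofFn c))).card =
      ((range (2 ^ s)).filter R).card := by
  refine Finset.card_bij (fun c _ => valB (List.ofFn c)) ?_ ?_ ?_
  · intro c hc
    have h1 := valB_lt (List.ofFn c)
    rw [List.length_ofFn] at h1
    exact mem_filter.2 ⟨mem_range.2 h1, (mem_filter.1 hc).2⟩
  · intro c _ c' _ h
    obtain ⟨v, hv, hv2⟩ := exists_bitsOf (List.ofFn c)
    obtain ⟨v', hv', hv2'⟩ := exists_bitsOf (List.ofFn c')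
    rw [List.length_ofFn] at hv hv2 hv' hv2'
    have h1 : valB (List.ofFn c) = v := by rw [← hv2]; exact valB_bitsOf _ _ hv
    have h2 : valB (List.ofFn c') = v' := by rw [← hv2']; exact valB_bitsOf _ _ hv'
    rw [h1, h2] at h
    rw [h] at hv2
    exact List.ofFn_injective (hv2.symm.trans hv2')
  · intro v hv
    rw [mem_filter, mem_range] at hv
    have h1 : List.ofFn (fun i : Fin s => (bitsOf s v)[i.val]'(by
        rw [length_bitsOf]; exact i.2)) = bitsOf s v := by
      apply List.ext_getElem
      · simp [length_bitsOf]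
      · intro n h1 h2
        simp
    refine ⟨fun i => (bitsOf s v)[i.val]'(by rw [length_bitsOf]; exact i.2), ?_, ?_⟩
    · rw [mem_filter]
      refine ⟨mem_univ _, ?_⟩
      rw [h1, valB_bitsOf _ _ hv.1]
      exact hv.2
    · show valB (List.ofFn _) = v
      rw [h1, valB_bitsOf _ _ hv.1]

theorem card_mul_lt (s K : ℕ) (hK : 1 ≤ K) :
    (((range (2 ^ s)).filter fun v => v * K < 2 ^ s).card : ℝ) ≤ 2 ^ s / K + 1 ∧
      (2 ^ s / K : ℝ) ≤ (((range (2 ^ s)).filter fun v => v * K < 2 ^ s).card : ℝ) := by
  have hKp : (0 : ℝ) < K := by exact_mod_cast hK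
  have h1 : (range (2 ^ s)).filter (fun v => v * K < 2 ^ s) = range ((2 ^ s - 1) / K + 1) := by
    ext v
    rw [mem_filter, mem_range, mem_range, Nat.lt_succ_iff, Nat.le_div_iff_mul_le hK]
    have h2 : 0 < 2 ^ s := Nat.two_pow_pos s
    constructor
    · rintro ⟨_, h⟩
      omega
    · intro h
      have h3 : v ≤ v * K := Nat.le_mul_of_pos_right _ hK
      exact ⟨by omega, by omega⟩
  rw [h1, card_range]
  have h2 : 0 < 2 ^ s := Nat.two_pow_pos s
  constructor
  · have h3 : (((2 ^ s - 1) / K : ℕ) : ℝ) ≤ 2 ^ s / K := by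
      refine (Nat.cast_div_le).trans ?_
      gcongr
      rw [Nat.cast_sub h2]
      push_cast
      linarith
    push_cast
    linarith
  · rw [div_le_iff₀ hKp]
    have h3 : 2 ^ s ≤ ((2 ^ s - 1) / K + 1) * K := by
      have h4 := Nat.lt_div_mul_add (a := 2 ^ s - 1) (b := K) hK
      have h5 : ((2 ^ s - 1) / K + 1) * K = (2 ^ s - 1) / K * K + K := by ring
      omega
    exact_mod_cast h3

/-! ### the blocks -/

variable (g : ℕ → ℕ)

/-- the number of guessed bits for the input number `i` -/
def mm (i : ℕ) : ℕ := g (str i).length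

/-- the strings of the block of `i` and `k` -/
def cs (j : ℕ × ℕ) (t : ℕ) : List Bool :=
  pairBits (str j.1) (pairBits (bitsOf (mm g j.1) j.2) (List.replicate t true))

/-- the cell of the input number `i` -/
def cell (i : ℕ) : List (ℕ × ℕ) := (List.range (2 ^ mm g i)).map fun k => (i, k)

/-- the set of the positions of the strings of a block -/
noncomputable def WB (N : ℕ) (j : ℕ × ℕ) : Finset (Fin N) :=
  open Classical in univ.filter fun e => ∃ t < 3 * mm g j.1, str e = cs g j t

/-- the block wins -/
def winZ (N : ℕ) (j : ℕ × ℕ) (z : Fin N → Bool) : Prop :=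
  Wins (orc N z) (str j.1) (bitsOf (mm g j.1) j.2)

variable {g}

theorem cs_inj {j j' : ℕ × ℕ} (hj : j.2 < 2 ^ mm g j.1) (hj' : j'.2 < 2 ^ mm g j'.1) {t t' : ℕ}
    (h : cs g j t = cs g j' t') : j = j' ∧ t = t' := by
  have h1 := congrArg unpair h
  unfold cs at h1
  rw [unpair_pairBits, unpair_pairBits, Prod.mk.injEq] at h1
  have h2 := congrArg unpair h1.2
  rw [unpair_pairBits, unpair_pairBits, Prod.mk.injEq] at h2
  have h3 : j.1 = j'.1 := str_injective h1.1
  have h4 : j.2 = j'.2 := by
    have h5 := h2.1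
    rw [← h3] at h5 hj'
    exact bitsOf_inj hj hj' h5
  exact ⟨Prod.ext h3 h4, by simpa using congrArg List.length h2.2⟩

theorem WB_disj {N : ℕ} {j j' : ℕ × ℕ} (hj : j.2 < 2 ^ mm g j.1) (hj' : j'.2 < 2 ^ mm g j'.1)
    (hne : j ≠ j') : Disjoint (WB g N j) (WB g N j') := by
  rw [Finset.disjoint_left]
  intro e he he'
  simp only [WB, mem_filter, mem_univ, true_and] at he he'
  obtain ⟨t, _, ht⟩ := he
  obtain ⟨t', _, ht'⟩ := he'
  exact hne (cs_inj hj hj' (ht.symm.trans ht')).1

theorem mem_cell {i : ℕ} {j : ℕ × ℕ} : j ∈ cell g i ↔ j.1 = i ∧ j.2 < 2 ^ mm g j.1 := by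
  simp only [cell, List.mem_map, List.mem_range]
  constructor
  · rintro ⟨k, hk, rfl⟩
    exact ⟨rfl, hk⟩
  · rintro ⟨h1, h2⟩
    exact ⟨j.2, by rwa [← h1], by rw [← h1]⟩

theorem mem_fl {n i : ℕ} {j : ℕ × ℕ} :
    j ∈ fl (cell g) n i ↔ (i ≤ j.1 ∧ j.1 < i + n) ∧ j.2 < 2 ^ mm g j.1 := by
  induction n generalizing i with
  | zero =>
    simp only [fl, List.not_mem_nil, false_iff, not_and]
    omega
  | succ n ih =>
    simp only [fl, List.mem_append, mem_cell, ih]
    constructor
    · rintro (⟨h1, h2⟩ | ⟨⟨h1, h2⟩, h3⟩)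
      · exact ⟨by omega, h2⟩
      · exact ⟨by omega, h3⟩
    · rintro ⟨⟨h1, h2⟩, h3⟩
      by_cases h : j.1 = i
      · exact Or.inl ⟨h, h3⟩
      · exact Or.inr ⟨by omega, h3⟩

theorem nodup_fl (n i : ℕ) : (fl (cell g) n i).Nodup := by
  induction n generalizing i with
  | zero => exact List.nodup_nil
  | succ n ih =>
    simp only [fl]
    rw [List.nodup_append']
    refine ⟨?_, ih _, ?_⟩
    · unfold cell
      refine List.Nodup.map (fun a b h => by simpa using h) List.nodup_range
    · intro j hj hj'
      rw [mem_cell] at hj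
      rw [mem_fl] at hj'
      omega

/-- winning depends on the block only -/
theorem winZ_congr {N : ℕ} {j : ℕ × ℕ} {z z' : Fin N → Bool}
    (h : ∀ e ∈ WB g N j, z e = z' e) : winZ g N j z ↔ winZ g N j z' := by
  unfold winZ Wins
  have h1 : ((List.range (3 * (bitsOf (mm g j.1) j.2).length)).map fun t => orc N z
      (pairBits (str j.1) (pairBits (bitsOf (mm g j.1) j.2) (List.replicate t true)))) =
      ((List.range (3 * (bitsOf (mm g j.1) j.2).length)).map fun t => orc N z'
      (pairBits (str j.1) (pairBits (bitsOf (mm g j.1) j.2) (List.replicate t true)))) := by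
    refine List.map_congr_left fun t ht => ?_
    rw [List.mem_range, length_bitsOf] at ht
    unfold orc
    split_ifs with hlt
    · refine h _ ?_
      simp only [WB, mem_filter, mem_univ, true_and]
      exact ⟨t, ht, str_idx _⟩
    · rfl
  rw [h1]

open Classical in
/-- the probability that a block wins -/
theorem prob_winZ {N : ℕ} {j : ℕ × ℕ} (hj : j.2 < 2 ^ mm g j.1)
    (hN : ∀ t < 3 * mm g j.1, idx (cs g j t) < N) :
    (1 / ((2 ^ mm g j.1 + j.2 + 1 : ℕ) : ℝ)) ≤ prob (winZ g N) j ∧
      prob (winZ g N) j ≤ 1 / ((2 ^ mm g j.1 + j.2 + 1 : ℕ) : ℝ) + 1 / 2 ^ (3 * mm g j.1) := by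
  obtain ⟨m, hm⟩ : ∃ m, m = mm g j.1 := ⟨_, rfl⟩
  obtain ⟨K, hK⟩ : ∃ K, K = 2 ^ m + j.2 + 1 := ⟨_, rfl⟩
  rw [← hm] at hj hN ⊢
  rw [← hK]
  obtain ⟨e, he⟩ : ∃ e : Fin (3 * m) → Fin N, e = fun t => ⟨idx (cs g j t.val), hN t.val t.2⟩ :=
    ⟨_, rfl⟩
  have hinj : Function.Injective e := by
    intro t t' h
    rw [he] at h
    have h1 : idx (cs g j t.val) = idx (cs g j t'.val) := by simpa using h
    have h2 : cs g j t.val = cs g j t'.val := by
      rw [← str_idx (cs g j t.val), h1, str_idx]
    exact Fin.ext (cs_inj (hm ▸ hj) (hm ▸ hj) h2).2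
  have h1 : (univ.filter (winZ g N j)) = univ.filter fun z : Fin N → Bool =>
      (valB (List.ofFn fun a => z (e a)) * K < 2 ^ (3 * m)) := by
    ext z
    simp only [mem_filter, mem_univ, true_and]
    show winZ g N j z ↔ valB (List.ofFn fun a => z (e a)) * K < 2 ^ (3 * m)
    unfold winZ Wins
    rw [length_bitsOf, ← hm, valB_bitsOf _ _ hj, ← hK]
    have h2 : ((List.range (3 * m)).map fun t => orc N z (pairBits (str j.1)
        (pairBits (bitsOf m j.2) (List.replicate t true)))) = List.ofFn fun a => z (e a) := by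
      apply List.ext_getElem
      · simp
      · intro t h1 h2
        simp only [List.getElem_map, List.getElem_range, List.getElem_ofFn]
        simp only [List.length_map, List.length_range] at h1
        unfold orc
        have h3 := hN t h1
        unfold cs at h3
        rw [← hm] at h3
        rw [dif_pos h3]
        have h6 : (⟨idx (pairBits (str j.1) (pairBits (bitsOf m j.2) (List.replicate t true))),
            h3⟩ : Fin N) = e ⟨t, h1⟩ := by
          subst he
          apply Fin.ext
          show _ = idx (cs g j t)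
          unfold cs
          rw [← hm]
        exact congrArg z h6
    rw [h2]
  have h2 := marg e hinj fun c => valB (List.ofFn c) * K < 2 ^ (3 * m)
  have h2' := card_val (3 * m) fun v => v * K < 2 ^ (3 * m)
  have h2 : (univ.filter (winZ g N j)).card * 2 ^ (3 * m) =
      ((range (2 ^ (3 * m))).filter fun v => v * K < 2 ^ (3 * m)).card *
        Fintype.card (Fin N → Bool) := by
    rw [h1]
    rw [h2'] at h2
    convert h2
  obtain ⟨h3, h4⟩ := card_mul_lt (3 * m) K (by omega)
  have hc : (0 : ℝ) < Fintype.card (Fin N → Bool) := by exact_mod_cast Fintype.card_pos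
  have hKp : (0 : ℝ) < K := by
    have : 0 < K := by omega
    exact_mod_cast this
  have h5 : prob (winZ g N) j =
      (((range (2 ^ (3 * m))).filter fun v => v * K < 2 ^ (3 * m)).card : ℝ) / 2 ^ (3 * m) := by
    unfold prob
    rw [div_eq_div_iff hc.ne' (by positivity)]
    exact_mod_cast h2
  rw [h5]
  constructor
  · rw [div_le_div_iff₀ hKp (by positivity)]
    rw [div_le_iff₀ hKp] at h4
    linarith
  · rw [div_le_iff₀ (by positivity)]
    refine h3.trans (le_of_eq ?_)
    field_simp

end Pool.Agent.TH93.ML
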