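import Pool.Agent.TH93.ML.Ae

/-!
# One algorithm covers the test language only relative to a null set of oracles
-/

set_option autoImplicit false

namespace Pool.Agent.TH93.ML

open Pool.Agent.NPC Pool.Agent.H620R2.Gauge Finset MeasureTheory Filter
open Pool.Agent.TH93.GL (poly_log)

theorem length_str (i : ℕ) : 2 ^ (str i).length ≤ i + 1 ∧ i + 1 < 2 ^ ((str i).length + 1) := by
  have h0 : (Nat.bits (i + 1)).length = (i + 1).size := Nat.size_eq_bits_len _
  have h1 : (str i).length = (i + 1).size - 1 := by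
    unfold str
    rw [List.length_tail, List.length_reverse, h0]
  have h2 : 1 ≤ (i + 1).size := by
    rw [Nat.one_le_iff_ne_zero]
    intro h
    rw [Nat.size_eq_zero] at h
    omega
  constructor
  · rw [h1, ← Nat.lt_size]
    omega
  · rw [h1, ← Nat.size_le]
    omega

/-- the length of the inputs is small -/
theorem lenE_le {j : ℕ} (hj : 1 ≤ j) {i₀ i i' : ℕ} (hi₀ : 1 ≤ i₀) (hi : i₀ ≤ i) (hi' : i' ≤ i + 1) :
    lenE j (2 * i₀) i' ≤ 2 ^ (((str i).length + 4) ^ j + 3) := by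
  obtain ⟨l, hl⟩ : ∃ l, l = (str i).length := ⟨_, rfl⟩
  obtain ⟨h1, h2⟩ := length_str i
  rw [← hl] at h1 h2 ⊢
  have h3 : (2 * i₀ + (i' + 2 * i₀) + i').size ≤ l + 4 := by
    rw [Nat.size_le]
    have h4 : 2 ^ (l + 4) = 2 ^ (l + 1) * 8 := by rw [show l + 4 = l + 1 + 3 by ring, pow_add]; norm_num
    omega
  have h4 : tj j (2 * i₀ + (i' + 2 * i₀) + i') ≤ 2 ^ ((l + 4) ^ j) := by
    unfold tj
    exact Nat.pow_le_pow_right (by norm_num) (Nat.pow_le_pow_left h3 j)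
  have h5 : l + 4 ≤ (l + 4) ^ j := Nat.le_self_pow (by omega) _
  have h6 : 2 ^ (l + 4) ≤ 2 ^ ((l + 4) ^ j) := Nat.pow_le_pow_right (by norm_num) h5
  have h7 : 2 ^ (l + 4) = 2 ^ (l + 1) * 8 := by rw [show l + 4 = l + 1 + 3 by ring, pow_add]; norm_num
  have h8 : 2 ^ ((l + 4) ^ j + 3) = 2 ^ ((l + 4) ^ j) * 8 := by rw [pow_add]; norm_num
  unfold lenE
  rw [h8]
  omega

/-- a bound for the number of the questions -/
theorem eval_lenE_le (P : Polynomial ℕ) {j : ℕ} (hj : 1 ≤ j) : ∃ c : ℕ, ∀ i₀ i i' : ℕ, 1 ≤ i₀ →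
    i₀ ≤ i → i' ≤ i + 1 →
    P.eval (lenE j (2 * i₀) i') ≤ 2 ^ (c * (str i).length ^ j) := by
  obtain ⟨c₁, hc₁⟩ := poly_log P
  refine ⟨c₁ * (5 ^ j + 4), fun i₀ i i' hi₀ hi hi' => ?_⟩
  have h1 := lenE_le hj hi₀ hi hi'
  obtain ⟨l, hl⟩ : ∃ l, l = (str i).length := ⟨_, rfl⟩
  have h2 := (length_str i).2
  rw [← hl] at h1 h2 ⊢
  have hl1 : 1 ≤ l := by
    rcases Nat.eq_zero_or_pos l with h | h
    · rw [h] at h2
      norm_num at h2
      omega
    · exact h
  refine (hc₁ _).trans (Nat.pow_le_pow_right (by norm_num) ?_)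
  have h3 : Nat.log 2 (lenE j (2 * i₀) i') ≤ (l + 4) ^ j + 3 := by
    have := Nat.log_mono_right (b := 2) h1
    rwa [Nat.log_pow (by norm_num)] at this
  have h4 : (l + 4) ^ j ≤ 5 ^ j * l ^ j := by
    rw [← mul_pow]
    exact Nat.pow_le_pow_left (by omega) j
  have h5 : 1 ≤ l ^ j := Nat.one_le_pow _ _ hl1
  rw [mul_assoc]
  refine Nat.mul_le_mul_left _ ?_
  calc Nat.log 2 (lenE j (2 * i₀) i') + 1 ≤ 5 ^ j * l ^ j + 4 * 1 := by omega
    _ ≤ 5 ^ j * l ^ j + 4 * l ^ j := by omega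
    _ = (5 ^ j + 4) * l ^ j := by ring

/-- telescoping -/
theorem sum_tel (i₀ n : ℕ) (hi₀ : 1 ≤ i₀) :
    ∑ t ∈ range n, (1 : ℝ) / (((i₀ + t : ℕ) : ℝ) + 1) ^ 2 ≤ 1 / (i₀ : ℝ) := by
  have h0 : (0 : ℝ) < i₀ := by exact_mod_cast hi₀
  have h : ∑ t ∈ range n, (1 : ℝ) / (((i₀ + t : ℕ) : ℝ) + 1) ^ 2 ≤
      1 / (i₀ : ℝ) - 1 / ((i₀ : ℝ) + n) := by
    induction n with
    | zero => simp
    | succ n ih =>
      rw [sum_range_succ]
      have hn : (0 : ℝ) ≤ n := Nat.cast_nonneg n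
      have h1 : (1 : ℝ) / (((i₀ + n : ℕ) : ℝ) + 1) ^ 2 ≤
          1 / ((i₀ : ℝ) + n) - 1 / ((i₀ : ℝ) + (n + 1 : ℕ)) := by
        push_cast
        have e1 : (1 : ℝ) / ((i₀ : ℝ) + n) - 1 / ((i₀ : ℝ) + (n + 1)) =
            1 / (((i₀ : ℝ) + n) * ((i₀ : ℝ) + (n + 1))) := by
          have h2 : (i₀ : ℝ) + n ≠ 0 := by positivity
          have h3 : (i₀ : ℝ) + (n + 1) ≠ 0 := by positivity
          field_simp
          ring
        rw [e1]
        apply one_div_le_one_div_of_le (by positivity)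
        nlinarith
      linarith
  have h2 : (0 : ℝ) ≤ 1 / ((i₀ : ℝ) + n) := by positivity
  linarith

/-- Relative to almost every oracle, the algorithm `M` does not compute a null cover which covers
the test language, if `g(n) ≥ c n ^ j` for all large `n`. -/
theorem ae_core (M : Alg) {j : ℕ} (hj : 1 ≤ j) : ∃ c : ℕ, ∀ g : ℕ → ℕ,
    (∀ᶠ n in atTop, c * n ^ j ≤ g n) → ∀ᵐ A ∂ranO, ¬ VC j M A (HL g A) := by
  obtain ⟨c₀, hc₀⟩ := eval_lenE_le M.p hj
  refine ⟨c₀ + 3, fun g hg => ?_⟩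
  obtain ⟨n₀, hn₀⟩ := eventually_atTop.1 hg
  -- the functions
  obtain ⟨ϖ, hϖ⟩ : ∃ ϖ : ℕ → ℝ, ϖ = fun i => 2 / 2 ^ ((c₀ + 3) * (str i).length ^ j) := ⟨_, rfl⟩
  have hϖ0 : ∀ i, 0 ≤ ϖ i := fun i => by rw [hϖ]; positivity
  have hpow : ∀ i, (1 : ℝ) / 2 ^ (2 * (str i).length) ≤ 4 * (1 / ((i : ℝ) + 1) ^ 2) := by
    intro i
    have h1 := (length_str i).2
    have h2 : ((i : ℝ) + 1) ≤ 2 * 2 ^ (str i).length := by
      have : ((i + 1 : ℕ) : ℝ) ≤ ((2 ^ ((str i).length + 1) : ℕ) : ℝ) := by exact_mod_cast h1.le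
      push_cast at this
      rw [pow_succ] at this
      linarith
    rw [mul_one_div, div_le_div_iff₀ (by positivity) (by positivity), one_mul]
    have h3 : (2 : ℝ) ^ (2 * (str i).length) = (2 ^ (str i).length) ^ 2 := by
      rw [← pow_mul]; congr 1; ring
    rw [h3]
    have h4 : (0 : ℝ) ≤ (i : ℝ) + 1 := by positivity
    calc ((i : ℝ) + 1) ^ 2 ≤ (2 * 2 ^ (str i).length) ^ 2 := by gcongr
      _ = _ := by ring
  have hterm : ∀ i, 1 ≤ i → (2 : ℝ) ^ (c₀ * (str i).length ^ j) * ϖ i ≤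
      8 * (1 / ((i : ℝ) + 1) ^ 2) := by
    intro i hi
    have h1 : (2 : ℝ) ^ (c₀ * (str i).length ^ j) * ϖ i = 2 * (1 / 2 ^ (3 * (str i).length ^ j)) := by
      rw [hϖ]
      simp only
      rw [add_mul, pow_add]
      field_simp
    have h2 : (1 : ℝ) / 2 ^ (3 * (str i).length ^ j) ≤ 1 / 2 ^ (2 * (str i).length) := by
      apply one_div_le_one_div_of_le (by positivity)
      apply pow_le_pow_right₀ (by norm_num)
      have := Nat.le_self_pow (n := j) (by omega) (str i).length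
      omega
    have h3 := hpow i
    rw [h1]
    linarith
  have hϖt : ∀ i, 1 ≤ i → ϖ i ≤ 8 * (1 / ((i : ℝ) + 1) ^ 2) := by
    intro i hi
    refine le_trans ?_ (hterm i hi)
    have h1 : (1 : ℝ) ≤ 2 ^ (c₀ * (str i).length ^ j) := one_le_pow₀ (by norm_num)
    nlinarith [hϖ0 i]
  -- the bound
  have hbd : ∀ i₀ : ℕ, 2 ^ (n₀ + 1) ≤ i₀ → ∀ n : ℕ,
      ranO {A | Ev g j (2 * i₀) i₀ n M (5 * (1 / 2) ^ i₀) A} ≤
        ENNReal.ofReal (Real.exp 8 * (5 * (1 / 2) ^ i₀) + 32 / i₀) := by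
    intro i₀ hi₀ n
    have hi1 : 1 ≤ i₀ := le_trans Nat.one_le_two_pow hi₀
    have hlen : ∀ i ≥ i₀, n₀ ≤ (str i).length ∧ 1 ≤ (str i).length := by
      intro i hi
      have h1 := (length_str i).2
      have h2 : 2 ^ (n₀ + 1) < 2 ^ ((str i).length + 1) := by omega
      have h3 := (Nat.pow_lt_pow_iff_right (by norm_num)).1 h2
      omega
    have hmm : ∀ i ≥ i₀, (c₀ + 3) * (str i).length ^ j ≤ mm g i := fun i hi => hn₀ _ (hlen i hi).1
    have hmono : ∀ i ≥ i₀, ∀ i' ≥ i, (str i).length ≤ (str i').length := by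
      intro i hi i' hi'
      have h1 := (length_str i).1
      have h2 := (length_str i').2
      have h3 : 2 ^ (str i).length < 2 ^ ((str i').length + 1) := by omega
      have h4 := (Nat.pow_lt_pow_iff_right (by norm_num)).1 h3
      omega
    have h1 := ev_prob g j (2 * i₀) i₀ n M (5 * (1 / 2) ^ i₀) (by positivity) ϖ ϖ hϖ0 hϖ0
      (fun i hi => by
        refine le_trans ?_ (hmm i hi)
        have h2 : 1 ≤ (str i).length ^ j := Nat.one_le_pow _ _ (hlen i hi).2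
        nlinarith)
      (fun i hi i' hi' => by
        rw [hϖ]
        simp only
        apply div_le_div_of_nonneg_left (by norm_num) (by positivity)
        apply pow_le_pow_right₀ (by norm_num)
        refine le_trans ?_ (hmm i' (by omega))
        exact Nat.mul_le_mul_left _ (Nat.pow_le_pow_left (hmono i hi i' hi') j))
      (fun i hi => by
        rw [hϖ]
        simp only
        apply div_le_div_of_nonneg_left (by norm_num) (by positivity)
        apply pow_le_pow_right₀ (by norm_num)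
        have := hmm i hi
        omega)
    refine h1.trans (ENNReal.ofReal_le_ofReal ?_)
    have hprod : ∏ t ∈ range n, (1 + ϖ (i₀ + t)) ≤ Real.exp 8 := by
      calc ∏ t ∈ range n, (1 + ϖ (i₀ + t)) ≤ ∏ t ∈ range n, Real.exp (ϖ (i₀ + t)) := by
            refine prod_le_prod (fun t _ => by linarith [hϖ0 (i₀ + t)]) fun t _ => ?_
            rw [add_comm]
            exact Real.add_one_le_exp _
        _ = Real.exp (∑ t ∈ range n, ϖ (i₀ + t)) := (Real.exp_sum _ _).symm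
        _ ≤ Real.exp 8 := by
            apply Real.exp_le_exp.2
            have h2 : ∑ t ∈ range n, ϖ (i₀ + t) ≤
                ∑ t ∈ range n, 8 * (1 / (((i₀ + t : ℕ) : ℝ) + 1) ^ 2) :=
              sum_le_sum fun t _ => hϖt (i₀ + t) (by omega)
            rw [← mul_sum] at h2
            have h3 := sum_tel i₀ n hi1
            have h4 : (1 : ℝ) / i₀ ≤ 1 := by
              rw [div_le_one (by exact_mod_cast hi1)]
              exact_mod_cast hi1
            linarith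
    have hsum : ∑ t ∈ range n, ((M.p.eval (lenE j (2 * i₀) (i₀ + t)) +
        2 * M.p.eval (lenE j (2 * i₀) (i₀ + t + 1)) : ℕ) : ℝ) * ϖ (i₀ + t) ≤ 24 / i₀ := by
      have h2 : ∀ t ∈ range n, ((M.p.eval (lenE j (2 * i₀) (i₀ + t)) +
          2 * M.p.eval (lenE j (2 * i₀) (i₀ + t + 1)) : ℕ) : ℝ) * ϖ (i₀ + t) ≤
          24 * (1 / (((i₀ + t : ℕ) : ℝ) + 1) ^ 2) := by
        intro t _
        have e1 := hc₀ i₀ (i₀ + t) (i₀ + t) hi1 (by omega) (by omega)
        have e2 := hc₀ i₀ (i₀ + t) (i₀ + t + 1) hi1 (by omega) (by omega)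
        have e3 : ((M.p.eval (lenE j (2 * i₀) (i₀ + t)) +
          2 * M.p.eval (lenE j (2 * i₀) (i₀ + t + 1)) : ℕ) : ℝ) ≤
            3 * 2 ^ (c₀ * (str (i₀ + t)).length ^ j) := by
          have : M.p.eval (lenE j (2 * i₀) (i₀ + t)) +
              2 * M.p.eval (lenE j (2 * i₀) (i₀ + t + 1)) ≤
              3 * 2 ^ (c₀ * (str (i₀ + t)).length ^ j) := by omega
          exact_mod_cast this
        have e4 := mul_le_mul_of_nonneg_right e3 (hϖ0 (i₀ + t))
        have e5 := hterm (i₀ + t) (by omega)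
        linarith
      refine (sum_le_sum h2).trans ?_
      rw [← mul_sum]
      have h3 := sum_tel i₀ n hi1
      have h4 : (24 : ℝ) / i₀ = 24 * (1 / i₀) := by ring
      rw [h4]
      linarith
    have hlast : ((M.p.eval (lenE j (2 * i₀) i₀) : ℕ) : ℝ) * ϖ i₀ ≤ 8 / i₀ := by
      have e1 := hc₀ i₀ i₀ i₀ hi1 le_rfl (by omega)
      have e3 : ((M.p.eval (lenE j (2 * i₀) i₀) : ℕ) : ℝ) ≤ 2 ^ (c₀ * (str i₀).length ^ j) := by
        exact_mod_cast e1
      have e4 := mul_le_mul_of_nonneg_right e3 (hϖ0 i₀)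
      have e5 := hterm i₀ hi1
      have h0 : (1 : ℝ) ≤ i₀ := by exact_mod_cast hi1
      have e6 : (1 : ℝ) / ((i₀ : ℝ) + 1) ^ 2 ≤ 1 / i₀ := by
        apply one_div_le_one_div_of_le (by linarith)
        nlinarith
      have h4 : (8 : ℝ) / i₀ = 8 * (1 / i₀) := by ring
      rw [h4]
      linarith
    have hβ : (0 : ℝ) ≤ 5 * (1 / 2) ^ i₀ := by positivity
    have h5 := mul_le_mul_of_nonneg_right hprod hβ
    have h6 : (32 : ℝ) / i₀ = 24 / i₀ + 8 / i₀ := by ring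
    rw [h6]
    linarith
  -- conclusion
  have hle : ∀ i₀ : ℕ, 2 ^ (n₀ + 1) ≤ i₀ → ranO {A | VC j M A (HL g A)} ≤
      ENNReal.ofReal (Real.exp 8 * (5 * (1 / 2) ^ i₀) + 32 / i₀) := by
    intro i₀ hi₀
    have hi1 : 1 ≤ i₀ := le_trans Nat.one_le_two_pow hi₀
    have hsub : {A | VC j M A (HL g A)} ⊆
        ⋃ n, {A | ∀ n' ≥ n, Ev g j (2 * i₀) i₀ n' M (5 * (1 / 2) ^ i₀) A} := by
      intro A hA
      rw [Set.mem_iUnion]
      exact ev_of_VC hA hi1
    refine (measure_mono hsub).trans ?_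
    have hmon : Monotone fun n : ℕ =>
        {A | ∀ n' ≥ n, Ev g j (2 * i₀) i₀ n' M (5 * (1 / 2) ^ i₀) A} :=
      fun a b hab A hA n' hn' => hA n' (le_trans hab hn')
    rw [hmon.measure_iUnion]
    refine iSup_le fun n => (measure_mono fun A hA => ?_).trans (hbd i₀ hi₀ n)
    exact hA n le_rfl
  have hlim : Tendsto (fun i₀ : ℕ => ENNReal.ofReal (Real.exp 8 * (5 * (1 / 2) ^ i₀) +
      32 / (i₀ : ℝ))) atTop (nhds 0) := by
    have h1 : Tendsto (fun i₀ : ℕ => Real.exp 8 * (5 * (1 / 2 : ℝ) ^ i₀) + 32 / (i₀ : ℝ)) atTop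
        (nhds (Real.exp 8 * (5 * 0) + 0)) := by
      refine Tendsto.add (Tendsto.const_mul _ (Tendsto.const_mul _ ?_)) ?_
      · exact tendsto_pow_atTop_nhds_zero_of_lt_one (by norm_num) (by norm_num)
      · exact tendsto_const_div_atTop_nhds_zero_nat 32
    have h2 := ENNReal.tendsto_ofReal h1
    simpa using h2
  have h0 : ranO {A | VC j M A (HL g A)} ≤ 0 :=
    ge_of_tendsto hlim (eventually_atTop.2 ⟨2 ^ (n₀ + 1), fun i₀ hi₀ => hle i₀ hi₀⟩)
  rw [ae_iff]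
  simpa using h0

end Pool.Agent.TH93.ML
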