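import Pool.Agent.TH93.ML.Mem
import Pool.Agent.TH93.ML.Core
import Pool.Agent.H622R2.Exp.M1

/-!
# Languages with few guessed bits are covered
-/

set_option autoImplicit false

namespace Pool.Agent.TH93.ML

open Pool.Agent.NPC Pool.Agent.H620R2.Gauge Pool.Agent.H622R2 Pool.Agent.H622R2.Exp
open Pool.Agent.TH93.GL

/-! ### the predictions -/

/-- a short certificate -/
def Bx (g : ℕ → ℕ) (V : List Bool → List Bool) (c j : ℕ) (x : List Bool) : Prop :=
  ∃ u : List Bool, u.length ≤ g x.length ∧ u.length ≤ c * x.length ^ j ∧
    V (pairBits u (pairBits (List.replicate x.length true) x)) = [true]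

/-- the prediction is computed in polynomial time with a sufficiently long padding -/
theorem exists_pred {g : ℕ → ℕ} (hg : NiceT (fun n => n) g) {A : Oracle}
    {V : List Bool → List Bool} (hV : IsFP A V) (c j : ℕ) :
    ∃ U : List Bool → List Bool, IsFP A U ∧ ∀ p x : List Bool, 2 ^ (x.length ^ j) ≤ p.length →
      (U (pairBits p x) = [true] ↔ Bx g V c j x) := by
  obtain ⟨F, hF, hFx⟩ := hg
  have hP := poly_of_polyTime hF
  set T : Polynomial ℕ := 2 * Polynomial.X ^ c with hT
  set W : (ℕ × List Bool) × List Bool → List Bool :=
    fun y => pairBits (ub y.1.1) (pairBits (List.replicate (unpair y.1.2).2.length true)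
      (unpair y.1.2).2) with hW
  set H : List Bool × List Bool → List Bool := fun y =>
    [y.2.zipIdx.any (fun p => p.1 && (decide ((ub p.2).length ≤
      (F (pairBits (List.replicate (unpair y.1).2.length true) (unpair y.1).2)).length) &&
      decide ((ub p.2).length ≤ c * (Polynomial.X ^ j : Polynomial ℕ).eval
        (unpair y.1).2.length)))] with hH
  have pW : Poly W := by
    have hz : Poly (fun y : (ℕ × List Bool) × List Bool => (unpair y.1.2).2) :=
      Poly.snd (poly_unpair.comp (Poly.snd (Poly.fst Poly.id)))
    rw [hW]
    refine poly_pairBits (poly_ub (Poly.fst (Poly.fst Poly.id))) (poly_pairBits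
      (V7.poly_replicate (UPoly.length hz)) hz)
  have pH : Poly H := by
    have hz : Poly (fun y : (List Bool × List Bool) × (Bool × ℕ) => (unpair y.1.1).2) :=
      Poly.snd (poly_unpair.comp (Poly.fst (Poly.fst Poly.id)))
    have hu : Poly (fun y : (List Bool × List Bool) × (Bool × ℕ) => (ub y.2.2).length) :=
      Poly.length (poly_ub (Poly.snd (Poly.snd Poly.id)))
    rw [hH]
    refine Poly.cons ?_ (NPC.Poly.const [])
    refine Poly.any (l := fun y : List Bool × List Bool => y.2.zipIdx)
      (p := fun (y : List Bool × List Bool) (p : Bool × ℕ) => p.1 && (decide ((ub p.2).length ≤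
      (F (pairBits (List.replicate (unpair y.1).2.length true) (unpair y.1).2)).length) &&
      decide ((ub p.2).length ≤ c * (Polynomial.X ^ j : Polynomial ℕ).eval
        (unpair y.1).2.length)))
      (Poly.zipIdx (Poly.snd Poly.id)) ?_
    refine Poly.and (Poly.fst (Poly.snd Poly.id)) (Poly.and (Poly.decide_le hu
      (Poly.length (hP.comp (poly_pairBits (V7.poly_replicate (UPoly.length hz)) hz))))
      (Poly.decide_le hu (Poly.mul (NPC.Poly.const c) ?_)))
    exact (UPoly.eval (UPoly.length hz) _).toPoly
  have hQ : Poly (fun _ : ℕ × List Bool => ([] : List (List Bool))) := NPC.Poly.const _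
  have hVV := IsFP.votes hV T hQ pW pH
  refine ⟨_, hVV, fun p x hpx => ?_⟩
  set y := pairBits p x with hy
  rw [hH, hW]
  have hF' := hFx x
  simp only [hy, unpair_pairBits, hF', List.length_replicate, List.cons.injEq, and_true,
    List.any_eq_true, Bool.and_eq_true, decide_eq_true_eq, Polynomial.eval_pow,
    Polynomial.eval_X]
  constructor
  · rintro ⟨⟨b, i⟩, hbi, hb, h1, h2⟩
    rw [List.mem_zipIdx_iff_getElem?] at hbi
    simp only [List.getElem?_map] at hbi
    dsimp only at hb h1 h2
    subst hb
    refine ⟨ub i, h1, h2, ?_⟩
    rcases Nat.lt_or_ge i (T.eval (pairBits p x).length) with h | h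
    · rw [List.getElem?_range h] at hbi
      simpa only [Option.map_some, Option.some.injEq, decide_eq_true_eq] using hbi
    · rw [List.getElem?_eq_none (by simpa using h)] at hbi
      simp at hbi
  · rintro ⟨u, hu1, hu2, hu3⟩
    obtain ⟨i, hi, hiu⟩ := exists_ub u
    have hlt : i < T.eval (pairBits p x).length := by
      refine lt_of_lt_of_le hi ?_
      rw [hT]
      simp only [Polynomial.eval_mul, Polynomial.eval_pow, Polynomial.eval_ofNat,
        Polynomial.eval_X]
      have h1 : p.length ≤ (pairBits p x).length := by
        rw [Pool.Agent.H620R2.Gauge.length_pairBits]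
        omega
      calc 2 ^ (u.length + 1) ≤ 2 ^ (c * x.length ^ j + 1) :=
            Nat.pow_le_pow_right (by norm_num) (by omega)
        _ = 2 * (2 ^ (x.length ^ j)) ^ c := by rw [pow_succ, ← pow_mul, mul_comm c]; ring
        _ ≤ 2 * (pairBits p x).length ^ c :=
            Nat.mul_le_mul_left _ (Nat.pow_le_pow_left (by omega) _)
    refine ⟨(true, i), ?_, rfl, by rw [hiu]; exact hu1, by rw [hiu]; exact hu2⟩
    rw [List.mem_zipIdx_iff_getElem?]
    simp only [List.getElem?_map]
    rw [List.getElem?_range hlt]
    simp only [Option.map_some, hiu, hu3, decide_true]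

/-! ### the density function -/

/-- the capital for the strings of length `n` -/
def Cf (β : ℕ → Bool) (n : ℕ) (w : List Bool) : ℕ :=
  if (List.range w.length).all (fun i => (! decide ((str i).length = n)) ||
      decide (w.getD i false = β i)) = true then
    2 ^ ((List.range w.length).filter fun i => decide ((str i).length = n)).length
  else 0

/-- the numerator of the capital -/
def Nm (β : ℕ → Bool) (w : List Bool) : ℕ :=
  ((List.range (w.length + 1)).map fun n => 2 ^ (w.length - n) * Cf β n w).sum + 1

theorem all_congr {α : Type} {l : List α} {p q : α → Bool} (h : ∀ a ∈ l, p a = q a) :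
    l.all p = l.all q := by
  induction l with
  | nil => rfl
  | cons a l ih =>
    rw [List.all_cons, List.all_cons, h a List.mem_cons_self,
      ih fun b hb => h b (List.mem_cons_of_mem _ hb)]

theorem Nm_congr {β β' : ℕ → Bool} {w : List Bool} (h : ∀ i < w.length, β i = β' i) :
    Nm β w = Nm β' w := by
  have h1 : ∀ n, Cf β n w = Cf β' n w := by
    intro n
    unfold Cf
    rw [all_congr (q := fun i => (! decide ((str i).length = n)) ||
      decide (w.getD i false = β' i)) fun i hi => by rw [h i (List.mem_range.1 hi)]]
  unfold Nm
  simp only [h1]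

theorem len_str_le (i : ℕ) : (str i).length ≤ i := by
  have h1 := (length_str i).1
  have h2 : (str i).length < 2 ^ (str i).length := Nat.lt_two_pow_self
  omega

theorem Cf_succ (β : ℕ → Bool) (n : ℕ) (w : List Bool) (b : Bool) :
    Cf β n (w ++ [b]) = if (str w.length).length = n then
      (if b = β w.length then 2 * Cf β n w else 0) else Cf β n w := by
  unfold Cf
  have h1 : (w ++ [b]).length = w.length + 1 := by simp
  have h2 : (List.range w.length).all (fun i => (! decide ((str i).length = n)) ||
      decide ((w ++ [b]).getD i false = β i)) =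
      (List.range w.length).all (fun i => (! decide ((str i).length = n)) ||
      decide (w.getD i false = β i)) := by
    refine all_congr fun i hi => ?_
    rw [List.getD_append _ _ _ _ (List.mem_range.1 hi)]
  have h3 : (w ++ [b]).getD w.length false = b := by
    rw [List.getD_append_right _ _ _ _ le_rfl, Nat.sub_self]
    rfl
  rw [h1, List.range_succ, List.all_append, List.filter_append, h2]
  by_cases hn : (str w.length).length = n
  · simp only [List.all_cons, List.all_nil, hn, decide_true, Bool.not_true, Bool.false_or, h3,
      Bool.and_true, List.filter_cons, if_true, List.filter_nil, List.length_append,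
      List.length_singleton, pow_succ]
    by_cases hb : b = β w.length
    · simp only [hb, decide_true, Bool.and_true, if_true]
      split_ifs <;> ring
    · simp [hb]
  · simp only [List.all_cons, List.all_nil, hn, decide_false, Bool.not_false, Bool.true_or,
      Bool.and_true, List.filter_cons, List.filter_nil, List.append_nil,
      Bool.false_eq_true, if_false]

theorem Cf_top (β : ℕ → Bool) {n : ℕ} {w : List Bool} (hn : w.length ≤ n) : Cf β n w = 1 := by
  unfold Cf
  have h1 : ∀ i ∈ List.range w.length, decide ((str i).length = n) = false := by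
    intro i hi
    rw [List.mem_range] at hi
    have := len_str_le i
    rw [decide_eq_false_iff_not]
    omega
  rw [List.filter_eq_nil_iff.2 fun i hi => by rw [h1 i hi]; simp, if_pos]
  · rfl
  · rw [List.all_eq_true]
    intro i hi
    rw [h1 i hi]
    rfl

theorem Cf_fair (β : ℕ → Bool) (n : ℕ) (w : List Bool) :
    Cf β n (w ++ [false]) + Cf β n (w ++ [true]) = 2 * Cf β n w := by
  rw [Cf_succ, Cf_succ]
  split_ifs with h1 h2 h3 h3
  · rw [← h2] at h3
    exact absurd h3 (by decide)
  · ring
  · ring
  · exfalso
    cases h4 : β w.length
    · exact h2 h4.symm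
    · exact h3 h4.symm
  · ring

theorem Nm_succ (β : ℕ → Bool) (w : List Bool) (b : Bool) : Nm β (w ++ [b]) =
    2 * ((List.range (w.length + 1)).map fun n => 2 ^ (w.length - n) * Cf β n (w ++ [b])).sum +
      2 := by
  unfold Nm
  have h1 : (w ++ [b]).length = w.length + 1 := by simp
  rw [h1, List.range_succ (n := w.length + 1), List.map_append, List.sum_append]
  simp only [List.map_cons, List.map_nil, List.sum_cons, List.sum_nil, Nat.sub_self, pow_zero,
    one_mul, add_zero]
  rw [Cf_top β (by rw [h1])]
  have h2 : ((List.range (w.length + 1)).map fun n =>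
      2 ^ (w.length + 1 - n) * Cf β n (w ++ [b])).sum =
      2 * ((List.range (w.length + 1)).map fun n => 2 ^ (w.length - n) * Cf β n (w ++ [b])).sum := by
    rw [← List.sum_map_mul_left]
    congr 1
    refine List.map_congr_left fun n hn => ?_
    rw [List.mem_range] at hn
    rw [show w.length + 1 - n = (w.length - n) + 1 by omega, pow_succ]
    ring
  rw [h2]

theorem Nm_fair (β : ℕ → Bool) (w : List Bool) :
    Nm β (w ++ [false]) + Nm β (w ++ [true]) = 4 * Nm β w := by
  rw [Nm_succ, Nm_succ]
  unfold Nm
  have h1 : ((List.range (w.length + 1)).map fun n =>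
      2 ^ (w.length - n) * Cf β n (w ++ [false])).sum + ((List.range (w.length + 1)).map fun n =>
      2 ^ (w.length - n) * Cf β n (w ++ [true])).sum =
      2 * ((List.range (w.length + 1)).map fun n => 2 ^ (w.length - n) * Cf β n w).sum := by
    rw [← List.sum_map_add, ← List.sum_map_mul_left]
    congr 1
    refine List.map_congr_left fun n _ => ?_
    have := Cf_fair β n w
    rw [← mul_add, this]
    ring
  omega

/-- the capital after the strings of length `n`, if all predictions are correct -/
theorem Cf_full {β : ℕ → Bool} {n : ℕ} {w : List Bool} (hw : w.length = 2 ^ (n + 1) - 1)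
    (h : ∀ i < w.length, (str i).length = n → w.getD i false = β i) :
    2 ^ 2 ^ n ≤ Cf β n w := by
  unfold Cf
  rw [if_pos]
  · apply Nat.pow_le_pow_right (by norm_num)
    have h1 : ∀ t ≤ 2 ^ n, t ≤ ((List.range (2 ^ n - 1 + t)).filter fun i =>
        decide ((str i).length = n)).length := by
      intro t
      induction t with
      | zero => intro _; exact Nat.zero_le _
      | succ t ih =>
        intro ht
        have h2 : (str (2 ^ n - 1 + t)).length = n := by
          obtain ⟨h3, h4⟩ := length_str (2 ^ n - 1 + t)
          have h5 : 1 ≤ 2 ^ n := Nat.one_le_two_pow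
          have h6 : 2 ^ (str (2 ^ n - 1 + t)).length < 2 ^ (n + 1) := by
            rw [pow_succ]
            omega
          have h7 : 2 ^ n < 2 ^ ((str (2 ^ n - 1 + t)).length + 1) := by omega
          have h8 := (Nat.pow_lt_pow_iff_right (by norm_num)).1 h6
          have h9 := (Nat.pow_lt_pow_iff_right (by norm_num)).1 h7
          omega
        rw [← Nat.add_assoc, List.range_succ, List.filter_append, List.length_append]
        simp only [List.filter_cons, h2, decide_true, if_true, List.filter_nil,
          List.length_singleton]
        have := ih (by omega)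
        omega
    have h2 := h1 (2 ^ n) le_rfl
    have h3 : 2 ^ n - 1 + 2 ^ n = w.length := by
      rw [hw, pow_succ]
      have : 1 ≤ 2 ^ n := Nat.one_le_two_pow
      omega
    rwa [h3] at h2
  · rw [List.all_eq_true]
    intro i hi
    rw [List.mem_range] at hi
    by_cases hn : (str i).length = n
    · rw [h i hi hn]
      simp
    · simp [hn]

end Pool.Agent.TH93.ML
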