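import Pool.Agent.TH93.ML.Defs
import Pool.Agent.TH93.GL.Up
import Pool.Agent.H622R2.Exp.A4

/-!
# The test language can be decided with `g(n)` guessed bits
-/

set_option autoImplicit false

namespace Pool.Agent.TH93.ML

open Pool.Agent.NPC Pool.Agent.H620R2.Gauge Pool.Agent.H622R2 Pool.Agent.H622R2.Exp
open Pool.Agent.TH93.GL

/-- the input -/
abbrev xi (z : List Bool) : List Bool := (unpair (unpair z).2).2

/-- the questions -/
def QM (z : List Bool) : List (List Bool) :=
  (List.range (3 * (unpair z).1.length)).map fun t =>
    pairBits (xi z) (pairBits (unpair z).1 (List.replicate (min t (3 * (unpair z).1.length)) true))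

/-- the verdict -/
def HM (F : List Bool → List Bool) (y : List Bool × List Bool) : List Bool :=
  [decide ((unpair y.1).1.length = (F (unpair y.1).2).length) &&
    decide (valB y.2 * (2 ^ (unpair y.1).1.length + valB (unpair y.1).1 + 1) <
      2 ^ (3 * (unpair y.1).1.length))]

theorem poly_QM : Poly QM := by
  have hw : Poly (fun z : List Bool => (unpair z).1) := Poly.fst poly_unpair
  have hx : Poly (fun z : List Bool => xi z) := Poly.snd (poly_unpair.comp (Poly.snd poly_unpair))
  have hp : UPoly (fun z : List Bool => 3 * (unpair z).1.length) :=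
    (UPoly.const 3).mul (UPoly.length hw)
  unfold QM
  refine NPC.Poly.map (F := fun (z : List Bool) (t : ℕ) =>
    pairBits (xi z) (pairBits (unpair z).1 (List.replicate (min t (3 * (unpair z).1.length)) true)))
    (UPoly.range hp) ?_
  have hx' : Poly (fun p : List Bool × ℕ => xi p.1) := hx.comp (Poly.fst Poly.id)
  have hw' : Poly (fun p : List Bool × ℕ => (unpair p.1).1) := hw.comp (Poly.fst Poly.id)
  have hp' : UPoly (fun p : List Bool × ℕ => 3 * (unpair p.1).1.length) :=
    (UPoly.const 3).mul (UPoly.length hw')
  refine poly_pairBits hx' (poly_pairBits hw' (V7.poly_replicate ?_))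
  exact UPoly.of_le (Poly.min (Poly.snd Poly.id) hp'.toPoly) hp' (fun p => min_le_right _ _)

theorem poly_HM {F : List Bool → List Bool} (hF : Poly F) : Poly (HM F) := by
  have hw : Poly (fun y : List Bool × List Bool => (unpair y.1).1) :=
    Poly.fst (poly_unpair.comp (Poly.fst Poly.id))
  have hy : Poly (fun y : List Bool × List Bool => F (unpair y.1).2) :=
    hF.comp (Poly.snd (poly_unpair.comp (Poly.fst Poly.id)))
  unfold HM
  refine Poly.cons (Poly.and (Poly.decide_eq (Poly.length hw) (Poly.length hy)) ?_)
    (NPC.Poly.const [])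
  refine Poly.decide_lt (Poly.mul (Poly.valBits (Poly.snd Poly.id)) (Poly.succ (Poly.add
    (A4.poly_two_pow (UPoly.length hw)) (Poly.valBits hw)))) (A4.poly_two_pow ?_)
  exact (UPoly.const 3).mul (UPoly.length hw)

/-- The test language can be decided with `g(n)` guessed bits. -/
theorem HL_guess {τ g : ℕ → ℕ} (hg : NiceT τ g) (A : Oracle) : InGuess τ g A (HL g A) := by
  obtain ⟨F, hF, hFx⟩ := hg
  have hP := poly_of_polyTime hF
  refine ⟨fun z => HM F (z, (QM z).map A), IsFP.tt poly_QM (poly_HM hP), fun x => ?_⟩
  have key : ∀ w : List Bool, HM F (pairBits w (pairBits (List.replicate (τ x.length) true) x),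
      (QM (pairBits w (pairBits (List.replicate (τ x.length) true) x))).map A) = [true] ↔
      (w.length = g x.length ∧ Wins A x w) := by
    intro w
    have h1 : (QM (pairBits w (pairBits (List.replicate (τ x.length) true) x))).map A =
        (List.range (3 * w.length)).map fun t => A (pairBits x (pairBits w
          (List.replicate t true))) := by
      unfold QM xi
      rw [List.map_map, unpair_pairBits]
      simp only [unpair_pairBits]
      refine List.map_congr_left fun t ht => ?_
      rw [List.mem_range] at ht
      simp only [Function.comp, min_eq_left ht.le]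
    rw [h1]
    unfold HM Wins
    simp only [unpair_pairBits, hFx, List.length_replicate, List.cons.injEq, and_true,
      Bool.and_eq_true, decide_eq_true_eq]
  unfold HL
  rw [Set.mem_ofPred_eq]
  constructor
  · rintro ⟨w, hw, h⟩
    exact ⟨w, hw.le, (key w).2 ⟨hw, h⟩⟩
  · rintro ⟨w, _, hw⟩
    exact ⟨w, (key w).1 hw⟩

end Pool.Agent.TH93.ML
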