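import Pool.Agent.TH93.ML.Core
import Pool.Agent.TH93.ML.Mem

/-!
# The number of the winning certificates is small
-/

set_option autoImplicit false

namespace Pool.Agent.TH93.ML

open Pool.Agent.NPC Pool.Agent.H620R2.Gauge Finset MeasureTheory Filter

theorem pow_step (S p : ℝ) (hS : 0 ≤ S) (hp : 0 ≤ p) (t : ℕ) :
    S ^ (t + 1) + (t + 1) * p * S ^ t ≤ (S + p) ^ (t + 1) := by
  induction t with
  | zero => simp
  | succ t ih =>
    have h1 := mul_le_mul_of_nonneg_right ih (by linarith : 0 ≤ S + p)
    have h2 : (S ^ (t + 1) + (t + 1) * p * S ^ t) * (S + p) =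
        S ^ (t + 1 + 1) + ((t + 1 : ℕ) + 1) * p * S ^ (t + 1) + (t + 1) * p ^ 2 * S ^ t := by
      push_cast
      ring
    rw [h2, ← pow_succ] at h1
    have h3 : 0 ≤ ((t : ℝ) + 1) * p ^ 2 * S ^ t := by positivity
    linarith

variable {J : Type*} [DecidableEq J] {π : J → ℝ}

/-- many hits are improbable -/
theorem Av_cnt (hπ : ∀ j, 0 ≤ π j ∧ π j ≤ 1) (l : List J) (hl : l.Nodup) :
    ∀ (t : ℕ) (g : J → Bool), Av π l (ind fun h => t ≤ (l.filter h).length) g ≤
      (l.map π).sum ^ t / (t.factorial : ℝ) := by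
  induction l with
  | nil =>
    intro t g
    rcases Nat.eq_zero_or_pos t with rfl | ht
    · simp [Av, ind]
    · have : ¬ t ≤ 0 := by omega
      simp only [Av, ind, List.filter_nil, List.length_nil, this, if_false, List.map_nil,
        List.sum_nil]
      positivity
  | cons j l ih =>
    rw [List.nodup_cons] at hl
    have hS : 0 ≤ (l.map π).sum := List.sum_nonneg fun x hx => by
      obtain ⟨i, _, rfl⟩ := List.mem_map.1 hx
      exact (hπ i).1
    intro t g
    rcases t with _ | t
    · refine (Av_mono hπ _ fun h _ => ind_le_one _ h).trans (le_of_eq ?_)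
      rw [Av_const]
      simp
    · simp only [Av]
      have h1 : Av π l (ind fun h => t + 1 ≤ ((j :: l).filter h).length)
          (Function.update g j false) ≤ (l.map π).sum ^ (t + 1) / ((t + 1).factorial : ℝ) := by
        refine (Av_mono hπ l fun h hh => ?_).trans (ih hl.2 (t + 1) (Function.update g j false))
        refine ind_mono fun h2 => ?_
        have h3 : h j = false := by rw [hh j hl.1, Function.update_self]
        rwa [List.filter_cons_of_neg (by simp [h3])] at h2
      have h2 : Av π l (ind fun h => t + 1 ≤ ((j :: l).filter h).length)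
          (Function.update g j true) ≤ (l.map π).sum ^ t / (t.factorial : ℝ) := by
        refine (Av_mono hπ l fun h hh => ?_).trans (ih hl.2 t (Function.update g j true))
        refine ind_mono fun h2 => ?_
        have h3 : h j = true := by rw [hh j hl.1, Function.update_self]
        rw [List.filter_cons_of_pos h3, List.length_cons] at h2
        omega
      have h3 := mul_le_mul_of_nonneg_left h1 (by linarith [(hπ j).2] : 0 ≤ 1 - π j)
      have h4 := mul_le_mul_of_nonneg_left h2 (hπ j).1
      have h5 := pow_step (l.map π).sum (π j) hS (hπ j).1 t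
      have hf : ((t + 1).factorial : ℝ) = (t + 1) * (t.factorial : ℝ) := by
        rw [Nat.factorial_succ]
        push_cast
        ring
      have hf0 : (0 : ℝ) < (t.factorial : ℝ) := by exact_mod_cast Nat.factorial_pos t
      have h6 : (l.map π).sum ^ (t + 1) / ((t + 1).factorial : ℝ) +
          π j * ((l.map π).sum ^ t / (t.factorial : ℝ)) ≤
          ((l.map π).sum + π j) ^ (t + 1) / ((t + 1).factorial : ℝ) := by
        have e1 : π j * ((l.map π).sum ^ t / (t.factorial : ℝ)) =
            ((t + 1) * π j * (l.map π).sum ^ t) / ((t + 1).factorial : ℝ) := by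
          rw [hf]
          field_simp
        rw [e1, ← add_div]
        exact div_le_div_of_nonneg_right h5 (by positivity)
      have h7 : (1 - π j) * ((l.map π).sum ^ (t + 1) / ((t + 1).factorial : ℝ)) ≤
          (l.map π).sum ^ (t + 1) / ((t + 1).factorial : ℝ) := by
        have : 0 ≤ (l.map π).sum ^ (t + 1) / ((t + 1).factorial : ℝ) := by positivity
        nlinarith [(hπ j).1]
      rw [List.map_cons, List.sum_cons, add_comm (π j)]
      linarith

/-- the number of the winners -/
noncomputable def nw (g : ℕ → ℕ) (A : Oracle) (x : List Bool) : ℕ :=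
  Set.ncard {y : List Bool | y.length = g x.length ∧ Wins A x y}

open Classical in
theorem nw_eq {g : ℕ → ℕ} {N i : ℕ} {z : Fin N → Bool} :
    nw g (orc N z) (str i) = ((cell g i).filter fun j => decide (winZ g N j z)).length := by
  unfold nw
  have h1 : {y : List Bool | y.length = g (str i).length ∧ Wins (orc N z) (str i) y} =
      (fun j : ℕ × ℕ => bitsOf (mm g i) j.2) ''
        ↑((cell g i).filter fun j => decide (winZ g N j z)).toFinset := by
    ext y
    simp only [Set.mem_ofPred_eq, Set.mem_image, mem_coe, List.mem_toFinset, List.mem_filter,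
      mem_cell, decide_eq_true_eq]
    constructor
    · rintro ⟨hy, hw⟩
      obtain ⟨k, hk, hk2⟩ := exists_bitsOf y
      rw [hy] at hk hk2
      refine ⟨(i, k), ⟨⟨rfl, hk⟩, ?_⟩, hk2⟩
      unfold winZ mm
      rw [hk2]
      exact hw
    · rintro ⟨j, ⟨⟨hj, hk⟩, hw⟩, rfl⟩
      refine ⟨length_bitsOf _ _, ?_⟩
      unfold winZ at hw
      rw [hj] at hw
      exact hw
  rw [h1, Set.ncard_image_of_injOn, Set.ncard_coe_finset, List.toFinset_card_of_nodup]
  · refine List.Nodup.filter _ ?_
    have := nodup_fl (g := g) 1 i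
    simpa [fl] using this
  · intro j hj j' hj' h
    simp only [mem_coe, List.mem_toFinset, List.mem_filter, mem_cell] at hj hj'
    have e1 : j.1 = j'.1 := hj.1.1.trans hj'.1.1.symm
    have e2 := hj.1.2
    have e3 := hj'.1.2
    rw [hj.1.1] at e2
    rw [hj'.1.1] at e3
    exact Prod.ext e1 (bitsOf_inj e2 e3 h)

open Classical in
/-- the probability of many winners -/
theorem nw_prob (g : ℕ → ℕ) {i : ℕ} (hm : 1 ≤ mm g i) (t : ℕ) :
    ranO {A | t ≤ nw g A (str i)} ≤ ENNReal.ofReal (2 ^ t / (t.factorial : ℝ)) := by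
  -- the finite part
  obtain ⟨N, hN⟩ : ∃ N : ℕ, ∀ q : List Bool,
      q.length ≤ 2 * (str i).length + 1 + (2 * mm g i + 1 + 3 * mm g i) → idx q < N := by
    refine ⟨2 ^ (2 * (str i).length + 1 + (2 * mm g i + 1 + 3 * mm g i) + 1), fun q hq => ?_⟩
    have h1 := idx_lt q
    have h2 : 2 ^ (q.length + 1) ≤
        2 ^ (2 * (str i).length + 1 + (2 * mm g i + 1 + 3 * mm g i) + 1) :=
      Nat.pow_le_pow_right (by norm_num) (by omega)
    omega
  have hcs : ∀ k t', t' < 3 * mm g i → idx (cs g (i, k) t') < N := by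
    intro k t' ht'
    apply hN
    unfold cs
    rw [Pool.Agent.H620R2.Gauge.length_pairBits, Pool.Agent.H620R2.Gauge.length_pairBits,
      length_bitsOf, List.length_replicate]
    simp only
    omega
  have hnw : ∀ A : Oracle, nw g A (str i) = nw g (orc N (pre N A)) (str i) := by
    intro A
    unfold nw
    congr 1
    ext y
    simp only [Set.mem_ofPred_eq]
    refine and_congr_right fun hy => ?_
    unfold Wins
    have h1 : ((List.range (3 * y.length)).map fun t => A (pairBits (str i)
        (pairBits y (List.replicate t true)))) =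
        ((List.range (3 * y.length)).map fun t => orc N (pre N A) (pairBits (str i)
        (pairBits y (List.replicate t true)))) := by
      refine List.map_congr_left fun t ht => ?_
      rw [List.mem_range] at ht
      rw [orc_pre]
      apply hN
      rw [Pool.Agent.H620R2.Gauge.length_pairBits, Pool.Agent.H620R2.Gauge.length_pairBits,
        List.length_replicate]
      unfold mm
      omega
    rw [h1]
  obtain ⟨L, hL⟩ : ∃ L, L = cell g i := ⟨_, rfl⟩
  have hndL : L.Nodup := by
    rw [hL]
    have := nodup_fl (g := g) 1 i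
    simpa [fl] using this
  have hmemL : ∀ x ∈ L, x.1 = i ∧ x.2 < 2 ^ mm g x.1 := fun x hx => by
    rw [hL, mem_cell] at hx
    exact hx
  have hprob : ∀ x ∈ L, 0 < prob (winZ g N) x ∧ prob (winZ g N) x < 1 ∧
      prob (winZ g N) x ≤ 2 / 2 ^ mm g i := by
    intro x hx
    obtain ⟨h1, h3⟩ := hmemL x hx
    have h0 : x = (i, x.2) := Prod.ext h1 rfl
    obtain ⟨h4, h5⟩ := prob_winZ (g := g) (N := N) (j := x) h3 (fun t ht => by
      rw [h0]
      rw [h1] at ht
      exact hcs _ _ ht)
    rw [h1] at h4 h5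
    have h7 : (2 : ℝ) ≤ 2 ^ mm g i := by
      calc (2 : ℝ) = 2 ^ 1 := by norm_num
        _ ≤ _ := pow_le_pow_right₀ (by norm_num) hm
    have h8 : (1 : ℝ) / ((2 ^ mm g i + x.2 + 1 : ℕ) : ℝ) ≤ 1 / (2 ^ mm g i + 1) := by
      apply one_div_le_one_div_of_le (by positivity)
      push_cast
      have : (0 : ℝ) ≤ x.2 := Nat.cast_nonneg _
      linarith
    have h9 : (1 : ℝ) / 2 ^ (3 * mm g i) ≤ 1 / (4 * 2 ^ mm g i) := by
      apply one_div_le_one_div_of_le (by positivity)
      have : (2 : ℝ) ^ (3 * mm g i) = 2 ^ mm g i * 2 ^ mm g i * 2 ^ mm g i := by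
        rw [← pow_add, ← pow_add]
        congr 1
        ring
      rw [this]
      nlinarith
    have h10 : (1 : ℝ) / (2 ^ mm g i + 1) ≤ 1 / 2 ^ mm g i :=
      one_div_le_one_div_of_le (by positivity) (by linarith)
    have h11 : (1 : ℝ) / (4 * 2 ^ mm g i) = 1 / 4 * (1 / 2 ^ mm g i) := by
      field_simp
    have h12 : (1 : ℝ) / 2 ^ mm g i ≤ 1 / 2 := one_div_le_one_div_of_le (by norm_num) h7
    have h13 : (0 : ℝ) < 1 / 2 ^ mm g i := by positivity
    have h14 : (2 : ℝ) / 2 ^ mm g i = 2 * (1 / 2 ^ mm g i) := by ring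
    refine ⟨lt_of_lt_of_le (by positivity) h4, by linarith, by rw [h14]; linarith⟩
  have hsum : (L.map (prob (winZ g N))).sum ≤ 2 := by
    have h1 := List.sum_le_card_nsmul (L.map (prob (winZ g N))) (2 / 2 ^ mm g i : ℝ) fun x hx => by
      obtain ⟨j, hj, rfl⟩ := List.mem_map.1 hx
      exact (hprob j hj).2.2
    rw [List.length_map, nsmul_eq_mul] at h1
    have h2 : L.length = 2 ^ mm g i := by rw [hL]; simp [cell]
    rw [h2] at h1
    have h3 : ((2 ^ mm g i : ℕ) : ℝ) * (2 / 2 ^ mm g i) = 2 := by
      push_cast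
      field_simp
    linarith
  have hsum0 : 0 ≤ (L.map (prob (winZ g N))).sum := List.sum_nonneg fun x hx => by
    obtain ⟨j, _, rfl⟩ := List.mem_map.1 hx
    exact (prob_mem _ j).1
  obtain ⟨Pz, hPz⟩ : ∃ Pz : (Fin N → Bool) → Prop,
    Pz = fun z => t ≤ nw g (orc N z) (str i) := ⟨_, rfl⟩
  have hmix := mix (W := WB g N) (winZ g N) L hndL
    (fun x hx => by
      by_contra hc
      push Not at hc
      have h1 := (hprob x hx).1
      unfold prob at h1
      have h2 : univ.filter (winZ g N x) = ∅ := by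
        ext z
        simp [hc z]
      have h3 : ((univ.filter (winZ g N x)).card : ℝ) = 0 := by rw [h2]; simp
      have h4 : (((univ.filter (winZ g N x)).card : ℝ) / Fintype.card (Fin N → Bool)) = 0 := by
        rw [h3, zero_div]
      have h5 : (0 : ℝ) < ((univ.filter (winZ g N x)).card : ℝ) / Fintype.card (Fin N → Bool) := by
        convert h1
      linarith)
    (fun x hx => by
      by_contra hc
      push Not at hc
      have h1 := (hprob x hx).2.1
      unfold prob at h1
      have h2 : univ.filter (winZ g N x) = univ := by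
        ext z
        simp [hc z]
      have h0 : (0 : ℝ) < Fintype.card (Fin N → Bool) := by exact_mod_cast Fintype.card_pos
      have h5 : ((univ.filter (winZ g N x)).card : ℝ) / Fintype.card (Fin N → Bool) < 1 := by
        convert h1
      rw [h2, card_univ, div_self h0.ne'] at h5
      exact lt_irrefl _ h5)
    (fun z => if Pz z then (1 : ℝ) else 0)
    (2 ^ t / (t.factorial : ℝ)) ?_
  · refine (measure_mono (t := {A : Oracle | Pz (pre N A)}) fun A hA => ?_).trans
      ((Pool.Agent.TH683.CP.ranO_pre (N := N) Pz).trans (ENNReal.ofReal_le_ofReal ?_))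
    · rw [Set.mem_ofPred_eq] at hA ⊢
      rw [hnw] at hA
      rw [hPz]
      exact hA
    rw [← card_of_Ex]
    have h7 : (Fintype.card (Fin N → Bool) : ℝ) * 2 ^ (-(N : ℝ)) = 1 := by
      rw [Fintype.card_fun, Fintype.card_fin, Fintype.card_bool]
      push_cast
      rw [← Real.rpow_natCast, ← Real.rpow_add (by norm_num)]
      simp
    have h8 : (0 : ℝ) < 2 ^ (-(N : ℝ)) := by positivity
    rw [Finset.sum_boole] at hmix
    refine (mul_le_mul_of_nonneg_right hmix h8.le).trans (le_of_eq ?_)
    rw [mul_assoc, h7, mul_one]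
  intro z₀ u v hu hv g₀
  have hdisj : ∀ x ∈ L, ∀ y ∈ L, x ≠ y → Disjoint (WB g N x) (WB g N y) :=
    fun x hx y hy hne => WB_disj (hmemL x hx).2 (hmemL y hy).2 hne
  have hwin : ∀ h, ∀ x ∈ L, (winZ g N x (putl (WB g N) z₀ u v L h) ↔ h x = true) := by
    intro h x hx
    have h1 : winZ g N x (putl (WB g N) z₀ u v L h) ↔ winZ g N x (if h x then v x else u x) :=
      winZ_congr fun e he => putl_mem hdisj hx h he
    rw [h1]
    cases h2 : h x
    · simp [hu x hx]
    · simp [hv x hx]
  have hcount : ∀ h, nw g (orc N (putl (WB g N) z₀ u v L h)) (str i) = (L.filter h).length := by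
    intro h
    rw [nw_eq, ← hL]
    congr 1
    refine List.filter_congr fun x hx => ?_
    rw [Bool.eq_iff_iff, decide_eq_true_eq]
    exact hwin h x hx
  have hπ := prob_mem (I := Fin N) (winZ g N)
  have h1 := Av_cnt hπ L hndL t g₀
  refine le_trans (le_of_eq ?_) (h1.trans ?_)
  · refine Av_congr hπ L fun h _ => ?_
    have h2 : Pz (putl (WB g N) z₀ u v L h) ↔ t ≤ (L.filter h).length := by
      rw [hPz]
      simp only [hcount]
    unfold ind
    by_cases h3 : t ≤ (L.filter h).length
    · rw [if_pos (h2.2 h3), if_pos h3]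
    · rw [if_neg (fun h4 => h3 (h2.1 h4)), if_neg h3]
  · apply div_le_div_of_nonneg_right (pow_le_pow_left₀ hsum0 hsum t) (Nat.cast_nonneg _)

/-- Relative to almost every oracle, inputs of length `n` have less than `n` winners, for all large
`n`. -/
theorem ae_few (g : ℕ → ℕ) (hg : ∀ᶠ n in atTop, 1 ≤ g n) :
    ∀ᵐ A ∂ranO, ∀ᶠ n : ℕ in atTop, ∀ x : List Bool, x.length = n → nw g A x < n := by
  obtain ⟨n₀, hn₀⟩ := eventually_atTop.1 hg
  obtain ⟨E, hE⟩ : ∃ E : ℕ → Set Oracle, E = fun n =>
    ⋃ v ∈ Finset.range (2 ^ n), {A | n ≤ nw g A (bitsOf n v)} := ⟨_, rfl⟩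
  have hbd : ∀ n ≥ n₀, ranO (E n) ≤ ENNReal.ofReal (4 ^ n / (n.factorial : ℝ)) := by
    intro n hn
    rw [hE]
    refine (measure_biUnion_finset_le _ _).trans ?_
    have h1 : ∀ v ∈ Finset.range (2 ^ n), ranO {A | n ≤ nw g A (bitsOf n v)} ≤
        ENNReal.ofReal (2 ^ n / (n.factorial : ℝ)) := by
      intro v _
      have h2 := nw_prob g (i := idx (bitsOf n v)) (by
        unfold mm
        rw [str_idx, length_bitsOf]
        exact hn₀ n hn) n
      rwa [str_idx] at h2
    refine (Finset.sum_le_card_nsmul _ _ _ h1).trans ?_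
    rw [Finset.card_range, nsmul_eq_mul]
    have h3 : ((2 ^ n : ℕ) : ENNReal) = ENNReal.ofReal (2 ^ n) := by
      rw [ENNReal.ofReal_pow (by norm_num)]
      simp
    rw [h3, ← ENNReal.ofReal_mul (by positivity)]
    apply ENNReal.ofReal_le_ofReal
    rw [← mul_div_assoc, ← mul_pow]
    norm_num
  have hsum : ∑' m : ℕ, ranO (E (n₀ + m)) ≠ ⊤ := by
    have h2 : Summable fun m : ℕ => (4 : ℝ) ^ (n₀ + m) / ((n₀ + m).factorial : ℝ) := by
      have h4 := (summable_nat_add_iff n₀).2 (Real.summable_pow_div_factorial 4)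
      exact h4.congr fun m => by rw [add_comm]
    refine ne_top_of_le_ne_top h2.tsum_ofReal_ne_top (ENNReal.tsum_le_tsum fun m => ?_)
    exact hbd (n₀ + m) (by omega)
  filter_upwards [ae_eventually_notMem hsum] with A hA
  obtain ⟨n₁, hn₁⟩ := eventually_atTop.1 hA
  rw [eventually_atTop]
  refine ⟨n₀ + n₁, fun n hn x hx => ?_⟩
  have h1 := hn₁ (n - n₀) (by omega)
  rw [Nat.add_sub_cancel' (by omega), hE] at h1
  by_contra hcon
  push Not at hcon
  obtain ⟨v, hv, hvx⟩ := exists_bitsOf x
  rw [hx] at hv hvx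
  refine h1 (Set.mem_iUnion₂.2 ⟨v, Finset.mem_range.2 hv, ?_⟩)
  rw [Set.mem_ofPred_eq, hvx]
  exact hcon

end Pool.Agent.TH93.ML
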