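import Pool.Agent.TH93.ML.Blk
import Pool.Agent.H620R2.Gauge.A1

/-!
# The gambler has little chance: the estimate for finitely many strings
-/

set_option autoImplicit false

namespace Pool.Agent.TH93.ML

open Pool.Agent.NPC Pool.Agent.H620R2.Gauge Finset

/-! ### the product -/

theorem prod_est (M : ℕ) (hM : 1 ≤ M) (δ : ℝ) (hδ : 0 ≤ δ) (p : ℕ → ℝ) (hp : ∀ k, p k ≤ 1) :
    ∀ n, (∀ k < n, 1 / ((M + k + 1 : ℕ) : ℝ) ≤ p k ∧ p k ≤ 1 / ((M + k + 1 : ℕ) : ℝ) + δ) →
      ((List.range n).map fun k => 1 - p k).prod ≤ (M : ℝ) / (M + n) ∧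
        (M : ℝ) / (M + n) - n * δ ≤ ((List.range n).map fun k => 1 - p k).prod ∧
        0 ≤ ((List.range n).map fun k => 1 - p k).prod := by
  have hMp : (0 : ℝ) < M := by exact_mod_cast hM
  intro n
  induction n with
  | zero => intro _; simp [hMp.ne']
  | succ n ih =>
    intro h
    obtain ⟨h1, h2, h3⟩ := ih fun k hk => h k (by omega)
    obtain ⟨h4, h5⟩ := h n (by omega)
    rw [List.range_succ, List.map_append, List.prod_append]
    simp only [List.map_cons, List.map_nil, List.prod_cons, List.prod_nil, mul_one]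
    obtain ⟨P, hP⟩ : ∃ P, P = ((List.range n).map fun k => 1 - p k).prod := ⟨_, rfl⟩
    rw [← hP] at h1 h2 h3 ⊢
    have hn : (0 : ℝ) ≤ n := Nat.cast_nonneg n
    have ha : (M : ℝ) / (M + (n + 1 : ℕ)) = (M : ℝ) / (M + n) * (1 - 1 / ((M + n + 1 : ℕ) : ℝ)) := by
      push_cast
      have h6 : (M : ℝ) + n ≠ 0 := by positivity
      have h7 : (M : ℝ) + n + 1 ≠ 0 := by positivity
      have h8 : (M : ℝ) + (n + 1) ≠ 0 := by positivity
      field_simp
      ring
    have hK : (1 : ℝ) / ((M + n + 1 : ℕ) : ℝ) ≤ 1 := by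
      rw [div_le_one (by positivity)]
      push_cast
      linarith
    have hK0 : (0 : ℝ) ≤ 1 / ((M + n + 1 : ℕ) : ℝ) := by positivity
    have hP1 : P ≤ 1 := by
      refine h1.trans ?_
      rw [div_le_one (by positivity)]
      linarith
    have hpn := hp n
    refine ⟨?_, ?_, mul_nonneg h3 (by linarith)⟩
    · rw [ha]
      exact mul_le_mul h1 (by linarith) (by linarith) (by positivity)
    · rw [ha]
      obtain ⟨a, had⟩ : ∃ a, a = 1 - 1 / ((M + n + 1 : ℕ) : ℝ) := ⟨_, rfl⟩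
      rw [← had]
      have ha0 : 0 ≤ a := by rw [had]; linarith
      have ha1 : a ≤ 1 := by rw [had]; linarith
      have h6 : P * (a - δ) ≤ P * (1 - p n) := mul_le_mul_of_nonneg_left (by rw [had]; linarith) h3
      have h7 : ((M : ℝ) / (M + n) - n * δ) * a ≤ P * a := mul_le_mul_of_nonneg_right h2 ha0
      have h8 : P * δ ≤ 1 * δ := mul_le_mul_of_nonneg_right hP1 hδ
      have h9 : (n : ℝ) * δ * a ≤ n * δ * 1 := mul_le_mul_of_nonneg_left ha1 (by positivity)
      push_cast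
      nlinarith

/-- the probability that a cell has no winner -/
theorem cell_est {g : ℕ → ℕ} {N i : ℕ} (hm : 1 ≤ mm g i)
    (hN : ∀ k < 2 ^ mm g i, ∀ t < 3 * mm g i, idx (cs g (i, k) t) < N) (ε : ℝ)
    (hε : 2 / 2 ^ (2 * mm g i) ≤ ε) :
    ((cell g i).map fun j => 1 - prob (winZ g N) j).prod ≤ (1 + ε) / 2 ∧
      1 - ((cell g i).map fun j => 1 - prob (winZ g N) j).prod ≤ (1 + ε) / 2 := by
  obtain ⟨m, hmd⟩ : ∃ m, m = mm g i := ⟨_, rfl⟩
  have h1 : ((cell g i).map fun j => 1 - prob (winZ g N) j) =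
      (List.range (2 ^ m)).map fun k => 1 - prob (winZ g N) (i, k) := by
    rw [cell, List.map_map, ← hmd]
    rfl
  rw [h1]
  have h2 := prod_est (2 ^ m) Nat.one_le_two_pow (1 / 2 ^ (3 * m)) (by positivity)
    (fun k => prob (winZ g N) (i, k)) (fun k => (prob_mem _ _).2) (2 ^ m) (fun k hk => by
      have h3 := prob_winZ (g := g) (N := N) (j := (i, k)) (by rw [← hmd]; exact hk)
        (fun t ht => hN k (by rw [← hmd]; exact hk) t ht)
      simp only [← hmd] at h3
      exact h3)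
  obtain ⟨h3, h4, _⟩ := h2
  have e1 : ((2 ^ m : ℕ) : ℝ) / (((2 ^ m : ℕ) : ℝ) + ((2 ^ m : ℕ) : ℝ)) = 1 / 2 := by
    have : ((2 ^ m : ℕ) : ℝ) ≠ 0 := by positivity
    field_simp
    norm_num
  have e2 : ((2 ^ m : ℕ) : ℝ) * (1 / 2 ^ (3 * m)) = 1 / 2 ^ (2 * m) := by
    have h5 : (2 : ℝ) ^ (3 * m) = 2 ^ (2 * m) * 2 ^ m := by
      rw [← pow_add]
      congr 1
      ring
    rw [h5]
    push_cast
    field_simp
  rw [e1] at h3 h4
  rw [e2] at h4
  have e3 : (2 : ℝ) / 2 ^ (2 * m) = 2 * (1 / 2 ^ (2 * m)) := by ring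
  rw [← hmd, e3] at hε
  have e4 : (0 : ℝ) < 1 / 2 ^ (2 * m) := by positivity
  constructor <;> linarith

/-! ### the gambler -/

/-- the approximation of the capital, for the level `k` of the null cover -/
noncomputable def Dv (j k : ℕ) (M : Alg) (A : Oracle) (w : List Bool) : ℝ :=
  max 0 (dya ((M.out A (enc j k (w.length + k) w)).getD []) + 3 * (1 / 2) ^ (w.length + k))

/-- success at one of the next `n` bits of the sequence `χ`, and fairness until then -/
def RecO (D : List Bool → ℝ) (χ : ℕ → Bool) : ℕ → List Bool → Prop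
  | 0, w => 1 ≤ D w
  | n + 1, w => 1 ≤ D w ∨
      (D (w ++ [false]) + D (w ++ [true]) ≤ 2 * D w ∧ RecO D χ n (w ++ [χ w.length]))

theorem recO_iff {J : Type*} (cell : ℕ → List J) (D : (J → Bool) → List Bool → ℝ) (h : J → Bool)
    (χ : ℕ → Bool) : ∀ (n : ℕ) (w : List Bool),
      (∀ i, w.length ≤ i → i < w.length + n → χ i = (cell i).any h) →
      (RecO (D h) χ n w ↔ Rec cell D n w h) := by
  intro n
  induction n with
  | zero => intro w _; exact Iff.rfl
  | succ n ih =>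
    intro w hw
    simp only [RecO, Rec]
    rw [hw w.length le_rfl (by omega)]
    rw [ih (w ++ [(cell w.length).any h]) fun i h1 h2 => hw i (by simp at h1; omega)
      (by simp at h2; omega)]

/-- the length of the inputs -/
def lenE (j k i : ℕ) : ℕ :=
  2 * tj j (k + (i + k) + i) + 1 + (2 * k + 1 + (2 * (i + k) + 1 + i))

theorem length_enc (j k : ℕ) (w : List Bool) :
    (enc j k (w.length + k) w).length = lenE j k w.length := by
  unfold enc lenE
  rw [Pool.Agent.H620R2.Gauge.length_pairBits, Pool.Agent.H620R2.Gauge.length_pairBits,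
    Pool.Agent.H620R2.Gauge.length_pairBits]
  simp only [List.length_replicate]

/-- the event -/
def Ev (g : ℕ → ℕ) (j k i₀ n : ℕ) (M : Alg) (β : ℝ) (A : Oracle) : Prop :=
  open Classical in
  Dv j k M A (chi (HL g A) i₀) ≤ β ∧
    RecO (Dv j k M A) (fun i => decide (str i ∈ HL g A)) n (chi (HL g A) i₀)

theorem length_chi (L : Set (List Bool)) (n : ℕ) : (chi L n).length = n := by
  unfold chi
  rw [List.length_map, List.length_range]

theorem mem_HL {g : ℕ → ℕ} {A : Oracle} {i : ℕ} :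
    str i ∈ HL g A ↔ ∃ k < 2 ^ mm g i, Wins A (str i) (bitsOf (mm g i) k) := by
  unfold HL
  rw [Set.mem_ofPred_eq]
  constructor
  · rintro ⟨y, hy, hw⟩
    obtain ⟨k, hk, hk2⟩ := exists_bitsOf y
    rw [hy] at hk hk2
    exact ⟨k, hk, by unfold mm; rw [hk2]; exact hw⟩
  · rintro ⟨k, _, hw⟩
    exact ⟨_, length_bitsOf _ _, hw⟩

open Classical in
/-- The estimate for a finite part of the oracle. -/
theorem fin_bound (g : ℕ → ℕ) (j k i₀ n : ℕ) (M : Alg) (N : ℕ) (β : ℝ) (hβ : 0 ≤ β)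
    (ϖ ε : ℕ → ℝ) (hϖ0 : ∀ i, 0 ≤ ϖ i) (hε0 : ∀ i, 0 ≤ ε i)
    (hm : ∀ i, i₀ ≤ i → i < i₀ + n → 1 ≤ mm g i)
    (hN : ∀ i < i₀ + n, ∀ k < 2 ^ mm g i, ∀ t < 3 * mm g i, idx (cs g (i, k) t) < N)
    (hϖ : ∀ i ≥ i₀, ∀ i' ≥ i, i' < i₀ + n → 2 / 2 ^ mm g i' ≤ ϖ i)
    (hε : ∀ i ≥ i₀, i < i₀ + n → 2 / 2 ^ (2 * mm g i) ≤ ε i) :
    ((univ.filter fun z : Fin N → Bool => Ev g j k i₀ n M β (orc N z)).card : ℝ) ≤
      ((∏ t ∈ range n, (1 + ε (i₀ + t))) * β +
        ∑ t ∈ range n, ((M.p.eval (lenE j k (i₀ + t)) + 2 * M.p.eval (lenE j k (i₀ + t + 1)) : ℕ) : ℝ)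
          * ϖ (i₀ + t) + M.p.eval (lenE j k i₀) * ϖ i₀) * Fintype.card (Fin N → Bool) := by
  obtain ⟨L, hL⟩ : ∃ L, L = fl (cell g) n i₀ := ⟨_, rfl⟩
  have hmemL : ∀ x ∈ L, (i₀ ≤ x.1 ∧ x.1 < i₀ + n) ∧ x.2 < 2 ^ mm g x.1 := by
    intro x hx
    rw [hL, mem_fl] at hx
    exact hx
  have hndL : L.Nodup := by rw [hL]; exact nodup_fl _ _
  have hdisj : ∀ x ∈ L, ∀ y ∈ L, x ≠ y → Disjoint (WB g N x) (WB g N y) :=
    fun x hx y hy hne => WB_disj (hmemL x hx).2 (hmemL y hy).2 hne
  have hprob : ∀ x ∈ L, 0 < prob (winZ g N) x ∧ prob (winZ g N) x < 1 ∧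
      prob (winZ g N) x ≤ 2 / 2 ^ mm g x.1 := by
    intro x hx
    obtain ⟨⟨h1, h2⟩, h3⟩ := hmemL x hx
    obtain ⟨h4, h5⟩ := prob_winZ (g := g) (N := N) (j := x) h3 (hN x.1 h2 x.2 h3)
    have h6 := hm x.1 h1 h2
    have h7 : (2 : ℝ) ≤ 2 ^ mm g x.1 := by
      calc (2 : ℝ) = 2 ^ 1 := by norm_num
        _ ≤ _ := pow_le_pow_right₀ (by norm_num) h6
    have h8 : (1 : ℝ) / ((2 ^ mm g x.1 + x.2 + 1 : ℕ) : ℝ) ≤ 1 / (2 ^ mm g x.1 + 1) := by
      apply one_div_le_one_div_of_le (by positivity)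
      push_cast
      have : (0 : ℝ) ≤ x.2 := Nat.cast_nonneg _
      linarith
    have h9 : (1 : ℝ) / 2 ^ (3 * mm g x.1) ≤ 1 / (4 * 2 ^ mm g x.1) := by
      apply one_div_le_one_div_of_le (by positivity)
      have : (2 : ℝ) ^ (3 * mm g x.1) = 2 ^ mm g x.1 * 2 ^ mm g x.1 * 2 ^ mm g x.1 := by
        rw [← pow_add, ← pow_add]
        congr 1
        ring
      rw [this]
      nlinarith
    have h10 : (1 : ℝ) / (2 ^ mm g x.1 + 1) ≤ 1 / 2 ^ mm g x.1 :=
      one_div_le_one_div_of_le (by positivity) (by linarith)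
    have h11 : (1 : ℝ) / (4 * 2 ^ mm g x.1) = 1 / 4 * (1 / 2 ^ mm g x.1) := by
      field_simp
    have h12 : (1 : ℝ) / 2 ^ mm g x.1 ≤ 1 / 2 := one_div_le_one_div_of_le (by norm_num) h7
    have h13 : (0 : ℝ) < 1 / 2 ^ mm g x.1 := by positivity
    have h14 : (2 : ℝ) / 2 ^ mm g x.1 = 2 * (1 / 2 ^ mm g x.1) := by ring
    refine ⟨lt_of_lt_of_le (by positivity) h4, by linarith, by rw [h14]; linarith⟩
  -- the touched blocks
  have hU : ∀ (A : Oracle) (w : List Bool), ∃ U : Finset (List Bool),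
      U.card ≤ M.p.eval (lenE j k w.length) ∧
      ∀ A' : Oracle, (∀ q ∈ U, A' q = A q) → Dv j k M A' w = Dv j k M A w := by
    intro A w
    obtain ⟨qb, hqb⟩ := Alg.out_local M
    obtain ⟨U, h1, _, h2⟩ := hqb A (enc j k (w.length + k) w)
    rw [length_enc] at h1
    refine ⟨U, h1, fun A' hA' => ?_⟩
    unfold Dv
    rw [h2 A' hA']
  choose U hUc hUl using hU
  have hbound : (0 : ℝ) ≤ M.p.eval (lenE j k i₀) * ϖ i₀ := mul_nonneg (Nat.cast_nonneg _) (hϖ0 _)
  have hmix := mix (W := WB g N) (winZ g N) L hndL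
    (fun x hx => by
      by_contra hc
      push Not at hc
      have h1 := (hprob x hx).1
      unfold prob at h1
      have h2 : univ.filter (winZ g N x) = ∅ := by
        ext z
        simp [hc z]
      have h3 : ((univ.filter (winZ g N x)).card : ℝ) = 0 := by rw [h2]; simp
      have h4 : (((univ.filter (winZ g N x)).card : ℝ) / Fintype.card (Fin N → Bool)) = 0 := by
        rw [h3, zero_div]
      have h5 : (0 : ℝ) < ((univ.filter (winZ g N x)).card : ℝ) / Fintype.card (Fin N → Bool) := by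
        convert h1
      linarith)
    (fun x hx => by
      by_contra hc
      push Not at hc
      have h1 := (hprob x hx).2.1
      unfold prob at h1
      have h2 : univ.filter (winZ g N x) = univ := by
        ext z
        simp [hc z]
      have h0 : (0 : ℝ) < Fintype.card (Fin N → Bool) := by exact_mod_cast Fintype.card_pos
      have h5 : ((univ.filter (winZ g N x)).card : ℝ) / Fintype.card (Fin N → Bool) < 1 := by
        convert h1
      rw [h2, card_univ, div_self h0.ne'] at h5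
      exact lt_irrefl _ h5)
    (fun z => if Ev g j k i₀ n M β (orc N z) then (1 : ℝ) else 0)
    ((∏ t ∈ range n, (1 + ε (i₀ + t))) * β +
        ∑ t ∈ range n, ((M.p.eval (lenE j k (i₀ + t)) + 2 * M.p.eval (lenE j k (i₀ + t + 1)) : ℕ) : ℝ)
          * ϖ (i₀ + t) + M.p.eval (lenE j k i₀) * ϖ i₀) ?_
  · refine le_trans (le_of_eq ?_) hmix
    rw [Finset.sum_boole]
  intro z₀ u v hu hv g₀
  obtain ⟨put, hput⟩ : ∃ put : (ℕ × ℕ → Bool) → (Fin N → Bool),
    put = fun h => putl (WB g N) z₀ u v L h := ⟨_, rfl⟩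
  -- membership in the language
  have hwin : ∀ h, ∀ x ∈ L, (winZ g N x (put h) ↔ h x = true) := by
    intro h x hx
    have h1 : winZ g N x (put h) ↔ winZ g N x (if h x then v x else u x) :=
      winZ_congr fun e he => by rw [hput]; exact putl_mem hdisj hx h he
    rw [h1]
    cases h2 : h x
    · simp [hu x hx]
    · simp [hv x hx]
  have hbit : ∀ h i, i₀ ≤ i → i < i₀ + n →
      decide (str i ∈ HL g (orc N (put h))) = (cell g i).any h := by
    intro h i h1 h2
    rw [Bool.eq_iff_iff, decide_eq_true_eq, mem_HL, List.any_eq_true]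
    constructor
    · rintro ⟨k', hk', hw⟩
      have hx : (i, k') ∈ L := by rw [hL, mem_fl]; exact ⟨⟨h1, h2⟩, hk'⟩
      exact ⟨(i, k'), mem_cell.2 ⟨rfl, hk'⟩, (hwin h _ hx).1 hw⟩
    · rintro ⟨x, hx, hhx⟩
      rw [mem_cell] at hx
      obtain ⟨rfl, hx2⟩ := hx
      have hxL : x ∈ L := by rw [hL, mem_fl]; exact ⟨⟨h1, h2⟩, hx2⟩
      exact ⟨x.2, hx2, (hwin h x hxL).2 hhx⟩
  have hpre : ∀ h, chi (HL g (orc N (put h))) i₀ = chi (HL g (orc N z₀)) i₀ := by
    intro h
    unfold chi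
    refine List.map_congr_left fun i hi => ?_
    rw [List.mem_range] at hi
    rw [decide_eq_decide, mem_HL, mem_HL]
    refine exists_congr fun k' => and_congr_right fun hk' => ?_
    refine winZ_congr (g := g) (N := N) (j := (i, k')) fun e he => ?_
    rw [hput]
    refine putl_notMem h fun x hx hex => ?_
    have hne : (i, k') ≠ x := by
      rintro rfl
      have := (hmemL _ hx).1.1
      simp only at this
      omega
    exact Finset.disjoint_left.1 (WB_disj (g := g) (N := N) (j := (i, k')) hk' (hmemL x hx).2 hne)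
      he hex
  obtain ⟨w₀, hw₀⟩ : ∃ w₀, w₀ = chi (HL g (orc N z₀)) i₀ := ⟨_, rfl⟩
  have hw₀l : w₀.length = i₀ := by rw [hw₀]; exact length_chi _ _
  obtain ⟨D, hD⟩ : ∃ D : (ℕ × ℕ → Bool) → List Bool → ℝ,
    D = fun h w => Dv j k M (orc N (put h)) w := ⟨_, rfl⟩
  have hEv : ∀ h, Ev g j k i₀ n M β (orc N (put h)) ↔
      (D h w₀ ≤ β ∧ Rec (cell g) D n w₀ h) := by
    intro h
    unfold Ev
    rw [hpre h, ← hw₀]
    have h1 := recO_iff (cell g) D h (fun i => decide (str i ∈ HL g (orc N (put h)))) n w₀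
      (fun i h1 h2 => hbit h i (by omega) (by omega))
    have h2 : D h = Dv j k M (orc N (put h)) := by rw [hD]
    rw [h2] at h1 ⊢
    exact and_congr_right fun _ => h1
  -- the queries
  obtain ⟨Q, hQ⟩ : ∃ Q : (ℕ × ℕ → Bool) → List Bool → Finset (ℕ × ℕ), Q = fun h w =>
    L.toFinset.filter fun x => ∃ t < 3 * mm g x.1, cs g x t ∈ U (orc N (put h)) w := ⟨_, rfl⟩
  have hQc : ∀ h w, (Q h w).card ≤ M.p.eval (lenE j k w.length) := by
    intro h w
    refine le_trans ?_ (hUc (orc N (put h)) w)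
    have h1 : ∀ x : ℕ × ℕ, ∃ q : List Bool, x ∈ Q h w → q ∈ U (orc N (put h)) w ∧
        ∃ t < 3 * mm g x.1, q = cs g x t := by
      intro x
      by_cases hx : x ∈ Q h w
      · simp only [hQ, Finset.mem_filter] at hx
        obtain ⟨_, t, ht, h2⟩ := hx
        exact ⟨_, fun _ => ⟨h2, t, ht, rfl⟩⟩
      · exact ⟨[], fun h => absurd h hx⟩
    choose f hf using h1
    refine Finset.card_le_card_of_injOn f (fun x hx => (hf x hx).1) ?_
    intro x hx y hy hxy
    obtain ⟨t, _, h2⟩ := (hf x hx).2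
    obtain ⟨t', _, h3⟩ := (hf y hy).2
    simp only [hQ, mem_coe, Finset.mem_filter, List.mem_toFinset] at hx hy
    exact (cs_inj (hmemL x hx.1).2 (hmemL y hy.1).2 (h2.symm.trans (hxy.trans h3))).1
  have hloc : ∀ g' h w, (∀ x ∈ Q g' w, h x = g' x) → D h w = D g' w := by
    intro g' h w hh
    rw [hD]
    refine hUl (orc N (put g')) w _ fun q hq => ?_
    unfold orc
    split_ifs with hlt
    · by_cases hx : ∃ x ∈ L, (⟨idx q, hlt⟩ : Fin N) ∈ WB g N x
      · obtain ⟨x, hx, hxe⟩ := hx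
        have h1 := hxe
        simp only [WB, mem_filter, mem_univ, true_and, str_idx] at h1
        obtain ⟨t, ht, htq⟩ := h1
        have h2 : h x = g' x := by
          refine hh x ?_
          simp only [hQ, Finset.mem_filter, List.mem_toFinset]
          exact ⟨hx, t, ht, by rw [← htq]; exact hq⟩
        rw [hput]
        show putl (WB g N) z₀ u v L h _ = putl (WB g N) z₀ u v L g' _
        rw [putl_mem hdisj hx h hxe, putl_mem hdisj hx g' hxe, h2]
      · push Not at hx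
        rw [hput]
        show putl (WB g N) z₀ u v L h _ = putl (WB g N) z₀ u v L g' _
        rw [putl_notMem h hx, putl_notMem g' hx]
    · rfl
  have hπ := prob_mem (I := Fin N) (winZ g N)
  -- the base point
  have hbase : Av (prob (winZ g N)) L (fun h => if Ev g j k i₀ n M β (orc N
        (putl (WB g N) z₀ u v L h)) then (1 : ℝ) else 0) g₀ =
      Av (prob (winZ g N)) L (fun h => if Ev g j k i₀ n M β (orc N
        (putl (WB g N) z₀ u v L h)) then (1 : ℝ) else 0) (fun _ => false) := by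
    refine Av_base L fun h h' h1 _ _ => ?_
    have h2 : putl (WB g N) z₀ u v L h = putl (WB g N) z₀ u v L h' := by
      have h3 : ∀ l : List (ℕ × ℕ), (∀ x ∈ l, h x = h' x) →
          putl (WB g N) z₀ u v l h = putl (WB g N) z₀ u v l h' := by
        intro l
        induction l with
        | nil => intro _; rfl
        | cons a l ih =>
          intro hl
          simp only [putl]
          rw [hl a List.mem_cons_self, ih fun x hx => hl x (List.mem_cons_of_mem _ hx)]
      exact h3 L h1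
    simp only [h2]
  rw [hbase]
  have hmain := main_rec (cell g) hπ D (fun h w => by rw [hD]; exact le_max_left _ _)
    (fun i => M.p.eval (lenE j k i)) Q hQc hloc ϖ ε hϖ0 hε0 i₀ (i₀ + n)
    (fun i hi i' hi' hi'' x hx => by
      rw [mem_cell] at hx
      have hxL : x ∈ L := by
        rw [hL, mem_fl]
        exact ⟨⟨by omega, by omega⟩, hx.2⟩
      refine (hprob x hxL).2.2.trans ?_
      rw [hx.1]
      exact hϖ i hi i' hi' hi'')
    (fun i hi hi' => cell_est (hm i hi hi') (fun k' hk' t ht => hN i hi' k' hk' t ht) (ε i)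
      (hε i hi hi')) n w₀ (fun _ => false) (by omega) (by omega)
    (by rw [hw₀l]; exact nodup_fl _ _) (fun _ _ => rfl)
  rw [hw₀l, ← hL] at hmain
  have hS0 : 0 ≤ ∑ t ∈ range n, ((M.p.eval (lenE j k (i₀ + t)) +
      2 * M.p.eval (lenE j k (i₀ + t + 1)) : ℕ) : ℝ) * ϖ (i₀ + t) :=
    sum_nonneg fun t _ => mul_nonneg (Nat.cast_nonneg _) (hϖ0 _)
  have hC0 : 0 ≤ ∏ t ∈ range n, (1 + ε (i₀ + t)) :=
    prod_nonneg fun t _ => by linarith [hε0 (i₀ + t)]
  -- the touched blocks at the start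
  have hhit := Av_hit' hπ (ϖ i₀) (hϖ0 _) (Q (fun _ => false) w₀) L hndL (fun x hx => by
    refine (hprob x hx).2.2.trans ?_
    have := hmemL x hx
    exact hϖ i₀ le_rfl x.1 this.1.1 this.1.2) (fun _ => false)
  have hhit2 : Av (prob (winZ g N)) L (ind fun h => ∃ x ∈ Q (fun _ => false) w₀, x ∈ L ∧
      h x = true) (fun _ => false) ≤ M.p.eval (lenE j k i₀) * ϖ i₀ := by
    refine hhit.trans (mul_le_mul_of_nonneg_right ?_ (hϖ0 _))
    have h1 := hQc (fun _ => false) w₀
    rw [hw₀l] at h1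
    exact Nat.cast_le.2 h1
  have hnt : ∀ h : ℕ × ℕ → Bool, (∀ x ∉ L, h x = false) →
      ¬ (∃ x ∈ Q (fun _ => false) w₀, x ∈ L ∧ h x = true) → D h w₀ = D (fun _ => false) w₀ := by
    intro h hh hc
    refine hloc _ h w₀ fun x hx => ?_
    by_cases hxL : x ∈ L
    · by_contra hne
      exact hc ⟨x, hx, hxL, by simpa using hne⟩
    · exact hh x hxL
  by_cases hDβ : D (fun _ => false) w₀ ≤ β
  · have h1 : Av (prob (winZ g N)) L (fun h => if Ev g j k i₀ n M β (orc N
        (putl (WB g N) z₀ u v L h)) then (1 : ℝ) else 0) (fun _ => false) ≤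
        Av (prob (winZ g N)) L (ind (Rec (cell g) D n w₀)) (fun _ => false) := by
      refine Av_mono hπ L fun h _ => ?_
      have h2 := hEv h
      rw [hput] at h2
      unfold ind
      split_ifs with h3 h4 h4
      · exact le_rfl
      · exact absurd (h2.1 h3).2 h4
      · norm_num
      · exact le_rfl
    refine h1.trans (hmain.trans ?_)
    have h2 := mul_le_mul_of_nonneg_left hDβ hC0
    linarith
  · have h1 : Av (prob (winZ g N)) L (fun h => if Ev g j k i₀ n M β (orc N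
        (putl (WB g N) z₀ u v L h)) then (1 : ℝ) else 0) (fun _ => false) ≤
        Av (prob (winZ g N)) L (ind fun h => ∃ x ∈ Q (fun _ => false) w₀, x ∈ L ∧
          h x = true) (fun _ => false) := by
      refine Av_mono hπ L fun h hh => ?_
      have h2 := hEv h
      rw [hput] at h2
      unfold ind
      split_ifs with h3 h4 h4
      · exact le_rfl
      · exact absurd (hnt h hh h4 ▸ (h2.1 h3).1) hDβ
      · norm_num
      · exact le_rfl
    have h2 : 0 ≤ (∏ t ∈ range n, (1 + ε (i₀ + t))) * β := mul_nonneg hC0 hβ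
    linarith

end Pool.Agent.TH93.ML
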