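import Pool.Agent.TH93.ML.Av

/-!
# Uniformly distributed points of a cube, described by the hits
-/

set_option autoImplicit false

namespace Pool.Agent.TH93.ML

open Finset

variable {J : Type*} [DecidableEq J] {I : Type*} [Fintype I] [DecidableEq I]

theorem Av_indep {π : J → ℝ} (l : List J) {j : J} (hj : j ∉ l) (F : (J → Bool) → ℝ) (b : Bool)
    (hF : ∀ h, F (Function.update h j b) = F h) (g : J → Bool) :
    Av π l F (Function.update g j b) = Av π l F g := by
  induction l generalizing g with
  | nil => exact hF g
  | cons i l ih =>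
    rw [List.mem_cons, not_or] at hj
    simp only [Av]
    rw [Function.update_comm hj.1, Function.update_comm hj.1, ih hj.2, ih hj.2]

variable (W : J → Finset I)

/-- the point with the content `v j` of the block `j` if `h j`, and otherwise the content `u j` -/
def putl (z₀ : I → Bool) (u v : J → I → Bool) : List J → (J → Bool) → (I → Bool)
  | [], _ => z₀
  | j :: l, h => (W j).piecewise (if h j then v j else u j) (putl z₀ u v l h)

variable {W}

theorem putl_update {z₀ : I → Bool} {u v : J → I → Bool} {l : List J} {j : J} (hj : j ∉ l)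
    (h : J → Bool) (b : Bool) : putl W z₀ u v l (Function.update h j b) = putl W z₀ u v l h := by
  induction l with
  | nil => rfl
  | cons i l ih =>
    rw [List.mem_cons, not_or] at hj
    simp only [putl]
    rw [ih hj.2, Function.update_of_ne (Ne.symm hj.1)]

theorem putl_congr {z₀ : I → Bool} {u v u' v' : J → I → Bool} {l : List J}
    (hu : ∀ j ∈ l, u j = u' j) (hv : ∀ j ∈ l, v j = v' j) (h : J → Bool) :
    putl W z₀ u v l h = putl W z₀ u' v' l h := by
  induction l with
  | nil => rfl
  | cons i l ih =>
    simp only [putl]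
    rw [ih (fun j hj => hu j (List.mem_cons_of_mem _ hj))
      (fun j hj => hv j (List.mem_cons_of_mem _ hj)), hu i List.mem_cons_self,
      hv i List.mem_cons_self]

/-- the value at a point of a block -/
theorem putl_mem {z₀ : I → Bool} {u v : J → I → Bool} {l : List J}
    (hd : ∀ j ∈ l, ∀ j' ∈ l, j ≠ j' → Disjoint (W j) (W j')) {j : J} (hj : j ∈ l)
    (h : J → Bool) {i : I} (hi : i ∈ W j) :
    putl W z₀ u v l h i = (if h j then v j else u j) i := by
  induction l with
  | nil => simp at hj
  | cons a l ih =>
    simp only [putl]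
    by_cases haj : a = j
    · subst haj
      rw [Finset.piecewise_eq_of_mem _ _ _ hi]
    · have h1 : i ∉ W a := fun h' =>
        Finset.disjoint_left.1 (hd a List.mem_cons_self j hj haj) h' hi
      rw [Finset.piecewise_eq_of_notMem _ _ _ h1]
      refine ih (fun x hx y hy => hd x (List.mem_cons_of_mem _ hx) y
        (List.mem_cons_of_mem _ hy)) ?_
      rcases List.mem_cons.1 hj with h2 | h2
      · exact absurd h2.symm haj
      · exact h2

/-- the value at a point outside of the blocks -/
theorem putl_notMem {z₀ : I → Bool} {u v : J → I → Bool} {l : List J} (h : J → Bool) {i : I}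
    (hi : ∀ j ∈ l, i ∉ W j) : putl W z₀ u v l h i = z₀ i := by
  induction l with
  | nil => rfl
  | cons a l ih =>
    simp only [putl]
    rw [Finset.piecewise_eq_of_notMem _ _ _ (hi a List.mem_cons_self)]
    exact ih fun j hj => hi j (List.mem_cons_of_mem _ hj)

theorem sum_pw (S : Finset I) (P : (I → Bool) → ℝ) :
    ∑ z' : I → Bool, ∑ z : I → Bool, P (S.piecewise z' z) =
      (Fintype.card (I → Bool) : ℝ) * ∑ z : I → Bool, P z := by
  have h1 : ∑ z' : I → Bool, ∑ z : I → Bool, P (S.piecewise z' z) =
      ∑ p : (I → Bool) × (I → Bool), P (S.piecewise p.1 p.2) := by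
    rw [Fintype.sum_prod_type]
  have h2 : ∑ p : (I → Bool) × (I → Bool), P (S.piecewise p.1 p.2) =
      ∑ p : (I → Bool) × (I → Bool), P p.1 := by
    refine Finset.sum_bij' (fun p _ => (S.piecewise p.1 p.2, S.piecewise p.2 p.1))
      (fun p _ => (S.piecewise p.1 p.2, S.piecewise p.2 p.1)) (fun _ _ => mem_univ _)
      (fun _ _ => mem_univ _) ?_ ?_ (fun _ _ => rfl)
    · rintro ⟨a, b⟩ _
      refine Prod.ext ?_ ?_ <;> funext i <;> by_cases hi : i ∈ S <;>
        simp [Finset.piecewise, hi]
    · rintro ⟨a, b⟩ _
      refine Prod.ext ?_ ?_ <;> funext i <;> by_cases hi : i ∈ S <;>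
        simp [Finset.piecewise, hi]
  rw [h1, h2, Fintype.sum_prod_type]
  simp only [sum_const, card_univ, nsmul_eq_mul]
  rw [← mul_sum]

open Classical in
/-- the probability that the block `j` wins -/
noncomputable def prob (win : J → (I → Bool) → Prop) (j : J) : ℝ :=
  ((univ.filter (win j)).card : ℝ) / Fintype.card (I → Bool)

theorem prob_mem (win : J → (I → Bool) → Prop) (j : J) : 0 ≤ prob win j ∧ prob win j ≤ 1 := by
  have h0 : (0 : ℝ) < Fintype.card (I → Bool) := by exact_mod_cast Fintype.card_pos
  refine ⟨by unfold prob; positivity, ?_⟩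
  unfold prob
  rw [div_le_one h0]
  exact_mod_cast card_le_univ _

open Classical in
/-- The mixing lemma. -/
theorem mix (win : J → (I → Bool) → Prop) (l : List J) (hl : l.Nodup)
    (h1 : ∀ j ∈ l, ∃ z, win j z) (h2 : ∀ j ∈ l, ∃ z, ¬ win j z)
    (P : (I → Bool) → ℝ) (δ : ℝ)
    (H : ∀ (z₀ : I → Bool) (u v : J → I → Bool), (∀ j ∈ l, ¬ win j (u j)) →
      (∀ j ∈ l, win j (v j)) → ∀ g : J → Bool,
        Av (prob win) l (fun h => P (putl W z₀ u v l h)) g ≤ δ) :
    ∑ z : I → Bool, P z ≤ δ * Fintype.card (I → Bool) := by
  have h0 : (0 : ℝ) < Fintype.card (I → Bool) := by exact_mod_cast Fintype.card_pos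
  induction l generalizing P with
  | nil =>
    have h3 : ∀ z, P z ≤ δ := fun z => by
      have := H z (fun _ => z) (fun _ => z) (by simp) (by simp) (fun _ => false)
      simpa [Av, putl] using this
    calc ∑ z : I → Bool, P z ≤ ∑ _z : I → Bool, δ := sum_le_sum fun z _ => h3 z
      _ = _ := by rw [sum_const, card_univ, nsmul_eq_mul, mul_comm]
  | cons j l ih =>
    rw [List.nodup_cons] at hl
    obtain ⟨X, hX⟩ : ∃ X : (I → Bool) → ℝ,
      X = fun z' => ∑ z : I → Bool, P ((W j).piecewise z' z) := ⟨_, rfl⟩
    have hw : (univ.filter (win j)).Nonempty := by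
      obtain ⟨z, hz⟩ := h1 j List.mem_cons_self
      exact ⟨z, mem_filter.2 ⟨mem_univ _, hz⟩⟩
    have hn : (univ.filter fun z => ¬ win j z).Nonempty := by
      obtain ⟨z, hz⟩ := h2 j List.mem_cons_self
      exact ⟨z, mem_filter.2 ⟨mem_univ _, hz⟩⟩
    obtain ⟨v', hv', hvm⟩ := exists_max_image _ X hw
    obtain ⟨u', hu', hum⟩ := exists_max_image _ X hn
    have hv'' : win j v' := (mem_filter.1 hv').2
    have hu'' : ¬ win j u' := (mem_filter.1 hu').2
    obtain ⟨p, hp⟩ : ∃ p, p = prob win j := ⟨_, rfl⟩
    have hcw : ((univ.filter (win j)).card : ℝ) = p * Fintype.card (I → Bool) := by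
      rw [hp, prob]
      field_simp
    have hcn : ((univ.filter fun z => ¬ win j z).card : ℝ) =
        (1 - p) * Fintype.card (I → Bool) := by
      have h3 := card_filter_add_card_filter_not (s := (univ : Finset (I → Bool))) (win j)
      rw [card_univ] at h3
      have h4 : ((univ.filter (win j)).card : ℝ) + ((univ.filter fun z => ¬ win j z).card : ℝ) =
          Fintype.card (I → Bool) := by exact_mod_cast h3
      rw [hcw] at h4
      linarith
    have h3 : (Fintype.card (I → Bool) : ℝ) * ∑ z : I → Bool, P z ≤
        (Fintype.card (I → Bool) : ℝ) * ∑ z : I → Bool, ((1 - p) * P ((W j).piecewise u' z) +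
          p * P ((W j).piecewise v' z)) := by
      rw [← sum_pw (W j) P]
      have e1 : ∑ z' : I → Bool, X z' = ∑ z' ∈ univ.filter (win j), X z' +
          ∑ z' ∈ univ.filter (fun z => ¬ win j z), X z' :=
        (sum_filter_add_sum_filter_not _ _ _).symm
      have e2 : ∑ z' ∈ univ.filter (win j), X z' ≤ p * Fintype.card (I → Bool) * X v' := by
        rw [← hcw, ← nsmul_eq_mul]
        exact sum_le_card_nsmul _ _ _ hvm
      have e3 : ∑ z' ∈ univ.filter (fun z => ¬ win j z), X z' ≤
          (1 - p) * Fintype.card (I → Bool) * X u' := by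
        rw [← hcn, ← nsmul_eq_mul]
        exact sum_le_card_nsmul _ _ _ hum
      have e4 : ∑ z' : I → Bool, ∑ z : I → Bool, P ((W j).piecewise z' z) =
          ∑ z' : I → Bool, X z' := by rw [hX]
      rw [e4, e1, sum_add_distrib, ← mul_sum, ← mul_sum]
      have e5 : ∑ z : I → Bool, P ((W j).piecewise u' z) = X u' := by rw [hX]
      have e6 : ∑ z : I → Bool, P ((W j).piecewise v' z) = X v' := by rw [hX]
      rw [e5, e6]
      linarith
    have h4 := le_of_mul_le_mul_left h3 h0
    refine h4.trans (ih hl.2 (fun i hi => h1 i (List.mem_cons_of_mem _ hi))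
      (fun i hi => h2 i (List.mem_cons_of_mem _ hi)) _ ?_)
    intro z₀ u v hu hv g
    have hne : ∀ i ∈ l, i ≠ j := by
      rintro i hi rfl
      exact hl.1 hi
    have h5 := H z₀ (Function.update u j u') (Function.update v j v') (by
      intro i hi
      rcases List.mem_cons.1 hi with rfl | hi
      · rwa [Function.update_self]
      · rw [Function.update_of_ne (hne i hi)]
        exact hu i hi) (by
      intro i hi
      rcases List.mem_cons.1 hi with rfl | hi
      · rwa [Function.update_self]
      · rw [Function.update_of_ne (hne i hi)]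
        exact hv i hi) g
    refine le_trans (le_of_eq ?_) h5
    have hul : ∀ i ∈ l, Function.update u j u' i = u i := fun i hi =>
      Function.update_of_ne (hne i hi) _ _
    have hvl : ∀ i ∈ l, Function.update v j v' i = v i := fun i hi =>
      Function.update_of_ne (hne i hi) _ _
    simp only [Av]
    rw [Av_add, Av_smul, Av_smul, ← hp]
    congr 1
    · congr 1
      rw [← Av_indep l hl.1 (fun h => P ((W j).piecewise u' (putl W z₀ u v l h))) false
        (fun h => by rw [putl_update hl.1]) g]
      refine Av_congr (prob_mem win) l fun h hh => ?_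
      have e1 : h j = false := by rw [hh j hl.1, Function.update_self]
      simp only [putl, e1, Bool.false_eq_true, if_false, Function.update_self]
      rw [putl_congr hul hvl]
    · congr 1
      rw [← Av_indep l hl.1 (fun h => P ((W j).piecewise v' (putl W z₀ u v l h))) true
        (fun h => by rw [putl_update hl.1]) g]
      refine Av_congr (prob_mem win) l fun h hh => ?_
      have e1 : h j = true := by rw [hh j hl.1, Function.update_self]
      simp only [putl, e1, if_true, Function.update_self]
      rw [putl_congr hul hvl]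

end Pool.Agent.TH93.ML
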